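import Pool.Agent.Q264.PD.Fin

/-!
# Project PD: jobs COMP, EN, SCALE
-/

open MeasureTheory Complex Filter Metric Set
open scoped ContDiff

namespace Pool.Agent.Q264.PD

lemma inj_of_conf {L : ℂ →L[ℝ] ℂ} {t : ℝ} (ht : 0 < t) (hu : L 1 = -I * (t : ℂ) * L I) (hv : L I ≠ 0) :
    Function.Injective L := by
  rw [injective_iff_map_eq_zero]
  intro x hx
  have h1 := lin_norm L t hu x
  rw [hx, norm_zero] at h1
  have h2 : 0 < ‖L I‖ ^ 2 := by positivity
  have h3 : 0 < ‖L 1‖ ^ 2 := by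
    have : L 1 ≠ 0 := by
      rw [hu]
      refine mul_ne_zero (mul_ne_zero (neg_ne_zero.mpr I_ne_zero) ?_) hv
      exact_mod_cast ht.ne'
    positivity
  have h5 : x.re ^ 2 = 0 := by
    by_contra h6
    have h7 : 0 < x.re ^ 2 := lt_of_le_of_ne (sq_nonneg _) (Ne.symm h6)
    have := mul_pos h3 h7
    nlinarith [sq_nonneg x.im, mul_nonneg h2.le (sq_nonneg x.im)]
  have h6 : x.im ^ 2 = 0 := by
    by_contra h6
    have h7 : 0 < x.im ^ 2 := lt_of_le_of_ne (sq_nonneg _) (Ne.symm h6)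
    have := mul_pos h2 h7
    nlinarith [mul_nonneg h3.le (sq_nonneg x.re)]
  apply Complex.ext
  · simpa using h5
  · simpa using h6

/-- the derivative of an injective conformal map as an equivalence -/
lemma exists_equiv {L : ℂ →L[ℝ] ℂ} {t : ℝ} (ht : 0 < t) (hu : L 1 = -I * (t : ℂ) * L I) (hv : L I ≠ 0) :
    ∃ e : ℂ ≃L[ℝ] ℂ, (e : ℂ →L[ℝ] ℂ) = L := by
  refine ⟨(LinearEquiv.ofInjectiveEndo (L : ℂ →ₗ[ℝ] ℂ) (inj_of_conf ht hu hv)).toContinuousLinearEquiv, ?_⟩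
  ext x
  rfl

/-- the inverse of a globally injective map is differentiable at a point of conformality -/
lemma inverse_at {f : ℂ → ℂ} (h3 : ContDiff ℝ 3 f) (hi : Function.Injective f) {z : ℂ} {t : ℝ} (ht : 0 < t)
    (hu : du f z = -I * (t : ℂ) * dv f z) (hv : dv f z ≠ 0) {h : ℂ → ℂ} (hh : ∀ᶠ w in nhds (f z), f (h w) = w) :
    (f '' univ ∈ nhds (f z)) ∧ ContDiffAt ℝ 3 h (f z) ∧ h (f z) = z ∧
      ∃ e : ℂ ≃L[ℝ] ℂ, (e : ℂ →L[ℝ] ℂ) = fderiv ℝ f z ∧ HasFDerivAt h (e.symm : ℂ →L[ℝ] ℂ) (f z) := by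
  obtain ⟨e, he⟩ := exists_equiv (L := fderiv ℝ f z) ht hu hv
  have hd : HasFDerivAt f (e : ℂ →L[ℝ] ℂ) z := by
    rw [he]
    exact (h3.differentiable (by norm_num) z).hasFDerivAt
  have hgz : ContDiffAt ℝ 3 f z := h3.contDiffAt
  have hn : (3 : WithTop ℕ∞) ≠ 0 := by norm_num
  have hs : HasStrictFDerivAt f (e : ℂ →L[ℝ] ℂ) z := hgz.hasStrictFDerivAt' hd hn
  have h1 : ∀ᶠ y in nhds (f z), f (hs.localInverse f e z y) = y := hs.eventually_right_inverse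
  have hev : h =ᶠ[nhds (f z)] hs.localInverse f e z := by
    filter_upwards [h1, hh] with y hy1 hy2
    exact hi (hy2.trans hy1.symm)
  have hloc : ContDiffAt ℝ 3 (hs.localInverse f e z) (f z) := hgz.to_localInverse hd hn
  refine ⟨?_, hloc.congr_of_eventuallyEq hev, ?_, e, he, ?_⟩
  · filter_upwards [h1] with y hy
    exact ⟨_, mem_univ _, hy⟩
  · have := hev.eq_of_nhds
    rw [this]
    exact hs.localInverse_apply_image
  · exact (hs.to_localInverse.hasFDerivAt).congr_of_eventuallyEq hev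

lemma smul_of_conf {L₁ L₂ : ℂ →L[ℝ] ℂ} {t : ℝ} (h1 : L₁ 1 = -I * (t : ℂ) * L₁ I) (h2 : L₂ 1 = -I * (t : ℂ) * L₂ I)
    (hv : L₁ I ≠ 0) (x : ℂ) : L₂ x = L₂ I / L₁ I * L₁ x := by
  rw [lin_apply L₂ x, lin_apply L₁ x, h1, h2]
  field_simp

/-- the change of chart at one point -/
lemma chart_at {f₁ f₂ : ℂ → ℂ} (h31 : ContDiff ℝ 3 f₁) (hi : Function.Injective f₁) (h32 : ContDiff ℝ 3 f₂)
    {z : ℂ} {t : ℝ} (ht : 0 < t)
    (hu1 : du f₁ z = -I * (t : ℂ) * dv f₁ z) (hu2 : du f₂ z = -I * (t : ℂ) * dv f₂ z) (hv : dv f₁ z ≠ 0)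
    {h : ℂ → ℂ} (hh : ∀ w, f₁ (h w) = w) : HasDerivAt (fun w => f₂ (h w)) (dv f₂ z / dv f₁ z) (f₁ z) := by
  obtain ⟨-, -, hz, e, he, hd⟩ := inverse_at h31 hi ht hu1 hv (Eventually.of_forall hh)
  have hd2 : HasFDerivAt f₂ (fderiv ℝ f₂ z) (h (f₁ z)) := by
    rw [hz]
    exact (h32.differentiable (by norm_num) z).hasFDerivAt
  have h3 := hd2.comp (f₁ z) hd
  have h4 : (fderiv ℝ f₂ z).comp (e.symm : ℂ →L[ℝ] ℂ) =
      (ContinuousLinearMap.toSpanSingleton ℂ (dv f₂ z / dv f₁ z)).restrictScalars ℝ := by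
    ext1 x
    show fderiv ℝ f₂ z (e.symm x) = x • (dv f₂ z / dv f₁ z)
    have hx : fderiv ℝ f₁ z (e.symm x) = x := by
      rw [← he]
      exact e.apply_symm_apply x
    rw [smul_of_conf (L₁ := fderiv ℝ f₁ z) (L₂ := fderiv ℝ f₂ z) hu1 hu2 hv, hx, smul_eq_mul, mul_comm]
    rfl
  rw [h4] at h3
  have h5 : HasFDerivAt (fun w => f₂ (h w))
      (ContinuousLinearMap.toSpanSingleton ℂ (dv f₂ z / dv f₁ z) : ℂ →L[ℂ] ℂ) (f₁ z) :=
    hasFDerivAt_of_restrictScalars ℝ h3 rfl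
  exact hasDerivAt_iff_hasFDerivAt.mpr h5

theorem t_COMP : S_COMP := by
  intro Q₁ Q₂ f₁ f₂ h1 h2 ρ hρ hQ
  obtain ⟨h, hh⟩ := h1.surj.hasRightInverse
  have hh' : ∀ w, f₁ (h w) = w := hh
  have hz : ∀ z, h (f₁ z) = z := fun z => h1.inj (hh' _)
  have hpt : ∀ z ∈ ball (0 : ℂ) ρ, HasDerivAt (fun w => f₂ (h w)) (dv f₂ z / dv f₁ z) (f₁ z) := by
    intro z hz'
    obtain ⟨hq, hq0⟩ := hQ z hz'
    exact chart_at h1.smooth h1.inj h2.smooth hq0 (h1.conf z) (by rw [← hq]; exact h2.conf z) (h1.ne z) hh'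
  refine ⟨?_, fun w => f₂ (h w), ?_, ?_, ?_⟩
  · rw [isOpen_iff_mem_nhds]
    rintro w ⟨z, hz', rfl⟩
    obtain ⟨hq, hq0⟩ := hQ z hz'
    obtain ⟨-, hc, hzz, -⟩ := inverse_at h1.smooth h1.inj hq0 (h1.conf z) (h1.ne z) (Eventually.of_forall hh')
    have h5 : ∀ᶠ w in nhds (f₁ z), h w ∈ ball (0 : ℂ) ρ := by
      apply hc.continuousAt.eventually
      rw [hzz]
      exact isOpen_ball.mem_nhds hz'
    filter_upwards [h5] with w hw
    exact ⟨h w, hw, hh' w⟩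
  · rintro w ⟨z, hz', rfl⟩
    exact (hpt z hz').differentiableAt.differentiableWithinAt
  · rintro w ⟨z, _, rfl⟩ w' ⟨z', _, rfl⟩ hww
    have hww' : f₂ (h (f₁ z)) = f₂ (h (f₁ z')) := hww
    rw [hz, hz] at hww'
    rw [h2.inj hww']
  · intro z hz'
    refine ⟨?_, ?_⟩
    · show f₂ (h (f₁ z)) = f₂ z
      rw [hz]
    · rw [(hpt z hz').deriv, div_mul_cancel₀ _ (h1.ne z)]

lemma det_conf {L : ℂ →L[ℝ] ℂ} {t : ℝ} (h1 : L 1 = -I * (t : ℂ) * L I) : L.det = t * ‖L I‖ ^ 2 := by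
  have h2 : L.det = LinearMap.det (L : ℂ →ₗ[ℝ] ℂ) := rfl
  rw [h2, ← LinearMap.det_toMatrix Complex.basisOneI, Matrix.det_fin_two]
  simp only [LinearMap.toMatrix_apply, Complex.coe_basisOneI, Complex.coe_basisOneI_repr]
  simp only [Matrix.cons_val_zero, Matrix.cons_val_one, ContinuousLinearMap.coe_coe]
  rw [h1, ← Complex.normSq_eq_norm_sq, Complex.normSq_apply]
  simp
  ring

lemma lin_applyR (L : ℂ →L[ℝ] ℝ) (w : ℂ) : L w = w.re * L 1 + w.im * L I := by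
  have h : w = w.re • (1 : ℂ) + w.im • I := by
    apply Complex.ext <;> simp
  conv_lhs => rw [h]
  rw [map_add, map_smul, map_smul, smul_eq_mul, smul_eq_mul]

theorem t_EN : S_EN := by
  intro Q f hf hQ φ hφ hc
  obtain ⟨h, hh⟩ := hf.surj.hasRightInverse
  have hh' : ∀ w, f (h w) = w := hh
  have hz : ∀ z, h (f z) = z := fun z => hf.inj (hh' _)
  have hat : ∀ z, ContDiffAt ℝ 3 h (f z) ∧ h (f z) = z ∧
      ∃ e : ℂ ≃L[ℝ] ℂ, (e : ℂ →L[ℝ] ℂ) = fderiv ℝ f z ∧ HasFDerivAt h (e.symm : ℂ →L[ℝ] ℂ) (f z) := fun z =>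
    (inverse_at hf.smooth hf.inj (hQ z) (hf.conf z) (hf.ne z) (Eventually.of_forall hh')).2
  have hhc : ContDiff ℝ 3 h := by
    rw [contDiff_iff_contDiffAt]
    intro w
    have := (hat (h w)).1
    rwa [hh'] at this
  refine ⟨fun w => φ (h w), hφ.comp (hhc.of_le (by norm_num)), ?_, fun z => congrArg φ (hz z), ?_⟩
  · refine HasCompactSupport.intro (hc.isCompact.image hf.smooth.continuous) ?_
    intro w hw
    by_contra hne
    apply hw
    exact ⟨h w, subset_tsupport _ hne, hh' w⟩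
  · have hcv := MeasureTheory.integral_image_eq_integral_abs_det_fderiv_smul (volume : Measure ℂ)
      (s := univ) (f := f) (f' := fun z => fderiv ℝ f z) MeasurableSet.univ
      (fun z _ => (hf.smooth.differentiable (by norm_num) z).hasFDerivAt.hasFDerivWithinAt)
      hf.inj.injOn
      (fun w => du (fun w => φ (h w)) w ^ 2 + dv (fun w => φ (h w)) w ^ 2)
    rw [image_univ, hf.surj.range_eq, Measure.restrict_univ] at hcv
    unfold Dir Energy
    rw [hcv]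
    congr 1
    funext z
    obtain ⟨-, -, e, he, hd⟩ := hat z
    have hφz : HasFDerivAt φ (fderiv ℝ φ z) (h (f z)) := by
      rw [hz]
      exact (hφ.differentiable (by norm_num) z).hasFDerivAt
    have hΦ := hφz.comp (f z) hd
    set G : ℂ →L[ℝ] ℝ := (fderiv ℝ φ z).comp (e.symm : ℂ →L[ℝ] ℂ) with hG
    have hGf : fderiv ℝ (fun w => φ (h w)) (f z) = G := hΦ.fderiv
    have hGL : ∀ x, G (fderiv ℝ f z x) = fderiv ℝ φ z x := by
      intro x
      rw [← he]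
      show fderiv ℝ φ z (e.symm (e x)) = _
      rw [e.symm_apply_apply]
    have h1 := hf.conf z
    have e1 : du (fun w => φ (h w)) (f z) = G 1 := by
      unfold du; rw [hGf]
    have e2 : dv (fun w => φ (h w)) (f z) = G I := by
      unfold dv; rw [hGf]
    have e3 : dv φ z = (dv f z).re * G 1 + (dv f z).im * G I := by
      rw [← lin_applyR]
      exact (hGL I).symm
    have e4 : du φ z = Q z * ((dv f z).im * G 1 - (dv f z).re * G I) := by
      have : du φ z = G (du f z) := (hGL 1).symm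
      rw [this, h1, lin_applyR]
      simp
      ring
    have hdet : (fderiv ℝ f z).det = Q z * ‖dv f z‖ ^ 2 := det_conf h1
    have hQz := hQ z
    rw [hdet, e1, e2, e3, e4, abs_of_nonneg (by positivity), smul_eq_mul, ← Complex.normSq_eq_norm_sq,
      Complex.normSq_apply]
    field_simp
    ring

end Pool.Agent.Q264.PD
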