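import Mathlib

/-!
# Project PD: definitions (MP_a5fed0_gt, complete flat metrics on the disc in orthogonal coordinates)
-/

open MeasureTheory Complex Filter Metric Set
open scoped ContDiff

namespace Pool.Agent.Q264.PD

/-- the derivative in the direction of the first coordinate `u` (`z = u + i v`) -/
noncomputable def du {F : Type*} [NormedAddCommGroup F] [NormedSpace ℝ F] (f : ℂ → F) (z : ℂ) : F :=
  fderiv ℝ f z 1

/-- the derivative in the direction of the second coordinate `v` (`z = u + i v`) -/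
noncomputable def dv {F : Type*} [NormedAddCommGroup F] [NormedSpace ℝ F] (f : ℂ → F) (z : ℂ) : F :=
  fderiv ℝ f z I

/-- the weighted Dirichlet energy, invariant under the conformal maps of the metric `Q² du² + dv²` -/
noncomputable def Energy (Q φ : ℂ → ℝ) : ℝ :=
  ∫ z, (du φ z ^ 2 / Q z + Q z * dv φ z ^ 2)

/-- the Dirichlet energy -/
noncomputable def Dir (Φ : ℂ → ℝ) : ℝ := ∫ z, (du Φ z ^ 2 + dv Φ z ^ 2)

/-- `f` is a diffeomorphism of the plane onto the plane, conformal from the metric `Q² du² + dv²` to the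
Euclidean metric: `f_u = - i Q f_v`, `f_v ≠ 0` -/
structure IsMap (Q : ℂ → ℝ) (f : ℂ → ℂ) : Prop where
  smooth : ContDiff ℝ 3 f
  conf : ∀ z, du f z = -I * (Q z : ℂ) * dv f z
  ne : ∀ z, dv f z ≠ 0
  inj : Function.Injective f
  surj : Function.Surjective f
  proper : Tendsto f (cocompact ℂ) (cocompact ℂ)

/-- the symbol of the transform which takes `∂f/∂z̄` to `∂f/∂z` -/
noncomputable def sym (ξ : ℂ) : ℂ := (starRingEnd ℂ) ξ / ξ

/-- the open unit disc of the plane of the coordinates `(u, v)` -/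
def Disc : Set (ℝ × ℝ) := {p | p.1 ^ 2 + p.2 ^ 2 < 1}

/-- `X` is an isometry of the open set `U` with the metric `E du² + G dv²` onto an open subset of the
Euclidean plane -/
structure IsIsometry (E G : ℝ × ℝ → ℝ) (U : Set (ℝ × ℝ)) (X : ℝ × ℝ → ℝ × ℝ) : Prop where
  smooth : ContDiffOn ℝ 3 X U
  inj : InjOn X U
  isOpen_image : IsOpen (X '' U)
  coefE : ∀ p ∈ U, (fderiv ℝ X p (1, 0)).1 ^ 2 + (fderiv ℝ X p (1, 0)).2 ^ 2 = E p
  coefF : ∀ p ∈ U, (fderiv ℝ X p (1, 0)).1 * (fderiv ℝ X p (0, 1)).1 +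
    (fderiv ℝ X p (1, 0)).2 * (fderiv ℝ X p (0, 1)).2 = 0
  coefG : ∀ p ∈ U, (fderiv ℝ X p (0, 1)).1 ^ 2 + (fderiv ℝ X p (0, 1)).2 ^ 2 = G p

/-- locally Euclidean: every point of the disc has an open neighbourhood isometric to an open subset of
the Euclidean plane -/
def LocallyEuclidean (E G : ℝ × ℝ → ℝ) : Prop :=
  ∀ p ∈ Disc, ∃ U : Set (ℝ × ℝ), IsOpen U ∧ p ∈ U ∧ U ⊆ Disc ∧ ∃ X, IsIsometry E G U X

/-- `L` is the length, for the metric `E du² + G dv²`, of a `C¹` path in the disc from `p` to `q` -/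
def IsLength (E G : ℝ × ℝ → ℝ) (p q : ℝ × ℝ) (L : ℝ) : Prop :=
  ∃ γ : ℝ → ℝ × ℝ, ContDiffOn ℝ 1 γ (Icc 0 1) ∧ (∀ t ∈ Icc (0 : ℝ) 1, γ t ∈ Disc) ∧ γ 0 = p ∧ γ 1 = q ∧
    L = ∫ t in (0 : ℝ)..1, Real.sqrt (E (γ t) * (derivWithin γ (Icc 0 1) t).1 ^ 2 +
      G (γ t) * (derivWithin γ (Icc 0 1) t).2 ^ 2)

/-- the distance induced by the metric `E du² + G dv²` on the disc: the infimum of the lengths of paths -/
noncomputable def lengthDist (E G : ℝ × ℝ → ℝ) (p q : ℝ × ℝ) : ℝ := sInf {L | IsLength E G p q L}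

/-- the disc with the induced length distance is complete: every Cauchy sequence converges -/
def IsCompleteMetric (E G : ℝ × ℝ → ℝ) : Prop :=
  ∀ x : ℕ → ℝ × ℝ, (∀ n, x n ∈ Disc) →
    (∀ ε : ℝ, 0 < ε → ∃ N : ℕ, ∀ m ≥ N, ∀ n ≥ N, lengthDist E G (x m) (x n) < ε) →
      ∃ p ∈ Disc, Tendsto (fun n => lengthDist E G (x n) p) atTop (nhds 0)

/-- the answer to the question of the problem -/
def Final : Prop :=
  ∃ E G : ℝ × ℝ → ℝ, ContDiffOn ℝ 2 E Disc ∧ ContDiffOn ℝ 2 G Disc ∧ (∀ p ∈ Disc, 0 < E p ∧ 0 < G p) ∧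
    LocallyEuclidean E G ∧ IsCompleteMetric E G ∧
    ∃ X : ℝ × ℝ → ℝ × ℝ, IsIsometry E G Disc X ∧ BijOn X Disc univ

end Pool.Agent.Q264.PD
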