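import Pool.Agent.Q264.PD.Stm

/-!
# Project PD: job FIN
-/

open MeasureTheory Complex Filter Metric Set
open scoped ContDiff

namespace Pool.Agent.Q264.PD

/-- the identification of the planes -/
noncomputable def eC : ℂ ≃L[ℝ] ℝ × ℝ := Complex.equivRealProdCLM

lemma eC_symm_apply (p : ℝ × ℝ) : eC.symm p = p.1 + p.2 * I := Complex.equivRealProdCLM_symm_apply p

lemma eC_apply (z : ℂ) : eC z = (z.re, z.im) := rfl

lemma normSq_eC (z : ℂ) : (eC z).1 ^ 2 + (eC z).2 ^ 2 = ‖z‖ ^ 2 := by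
  rw [eC_apply, ← Complex.normSq_eq_norm_sq, Complex.normSq_apply]
  ring

lemma mem_Disc (p : ℝ × ℝ) : p ∈ Disc ↔ eC.symm p ∈ ball (0 : ℂ) 1 := by
  rw [mem_ball_zero_iff]
  have h := normSq_eC (eC.symm p)
  rw [eC.apply_symm_apply] at h
  show p.1 ^ 2 + p.2 ^ 2 < 1 ↔ _
  rw [h]
  constructor
  · intro h1
    nlinarith [norm_nonneg (eC.symm p)]
  · intro h1
    nlinarith [norm_nonneg (eC.symm p)]

lemma Disc_eq : Disc = eC.symm ⁻¹' ball (0 : ℂ) 1 := by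
  ext p
  exact mem_Disc p

lemma isOpen_Disc : IsOpen Disc := by
  rw [Disc_eq]
  exact isOpen_ball.preimage eC.symm.continuous

lemma lin_apply (L : ℂ →L[ℝ] ℂ) (w : ℂ) : L w = (w.re : ℂ) * L 1 + (w.im : ℂ) * L I := by
  have h : w = w.re • (1 : ℂ) + w.im • I := by
    apply Complex.ext <;> simp
  conv_lhs => rw [h]
  rw [map_add, map_smul, map_smul]
  simp [Complex.real_smul]

lemma lin_norm (L : ℂ →L[ℝ] ℂ) (t : ℝ) (h : L 1 = -I * (t : ℂ) * L I) (w : ℂ) :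
    ‖L w‖ ^ 2 = ‖L 1‖ ^ 2 * w.re ^ 2 + ‖L I‖ ^ 2 * w.im ^ 2 := by
  rw [lin_apply L w, h]
  simp only [← Complex.normSq_eq_norm_sq, Complex.normSq_apply]
  simp
  ring

section

variable {g : ℂ → ℂ}

lemma inv_contDiff (hb : BijOn g (ball 0 1) univ) (h3 : ContDiffOn ℝ 3 g (ball 0 1))
    (hc : ∀ z ∈ ball (0 : ℂ) 1, ∃ t : ℝ, 0 < t ∧ du g z = -I * (t : ℂ) * dv g z ∧ dv g z ≠ 0) :
    ∃ h : ℂ → ℂ, ContDiff ℝ 1 h ∧ (∀ w, h w ∈ ball (0 : ℂ) 1) ∧ (∀ w, g (h w) = w) ∧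
      ∀ z ∈ ball (0 : ℂ) 1, h (g z) = z := by
  have hsur : ∀ w, ∃ z ∈ ball (0 : ℂ) 1, g z = w := fun w => by
    obtain ⟨z, hz, rfl⟩ := hb.surjOn (mem_univ w)
    exact ⟨z, hz, rfl⟩
  choose h hh1 hh2 using hsur
  have hh3 : ∀ z ∈ ball (0 : ℂ) 1, h (g z) = z := fun z hz => hb.injOn (hh1 _) hz (hh2 _)
  refine ⟨h, ?_, hh1, hh2, hh3⟩
  rw [contDiff_iff_contDiffAt]
  intro w
  obtain ⟨z, hz, rfl⟩ : ∃ z ∈ ball (0 : ℂ) 1, g z = w := ⟨h w, hh1 w, hh2 w⟩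
  have hgz : ContDiffAt ℝ 3 g z := h3.contDiffAt (isOpen_ball.mem_nhds hz)
  obtain ⟨t, ht, hu, hv⟩ := hc z hz
  set L := fderiv ℝ g z with hL
  have hinj : Function.Injective L := by
    rw [injective_iff_map_eq_zero]
    intro x hx
    have h1 := lin_norm L t hu x
    rw [hx, norm_zero] at h1
    have h2 : 0 < ‖L I‖ ^ 2 := by
      have : L I ≠ 0 := hv
      positivity
    have h3 : 0 < ‖L 1‖ ^ 2 := by
      have : L 1 ≠ 0 := by
        have h4 : L 1 = -I * (t : ℂ) * L I := hu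
        rw [h4]
        refine mul_ne_zero (mul_ne_zero (neg_ne_zero.mpr I_ne_zero) ?_) hv
        exact_mod_cast ht.ne'
      positivity
    have h5 : x.re ^ 2 = 0 := by
      by_contra h6
      have h7 : 0 < x.re ^ 2 := lt_of_le_of_ne (sq_nonneg _) (Ne.symm h6)
      have := mul_pos h3 h7
      nlinarith [sq_nonneg x.im, mul_nonneg h2.le (sq_nonneg x.im)]
    have h6 : x.im ^ 2 = 0 := by
      by_contra h6
      have h7 : 0 < x.im ^ 2 := lt_of_le_of_ne (sq_nonneg _) (Ne.symm h6)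
      have := mul_pos h2 h7
      nlinarith [mul_nonneg h3.le (sq_nonneg x.re)]
    apply Complex.ext
    · simpa using h5
    · simpa using h6
  let e : ℂ ≃L[ℝ] ℂ :=
    (LinearEquiv.ofInjectiveEndo (L : ℂ →ₗ[ℝ] ℂ) hinj).toContinuousLinearEquiv
  have he : (e : ℂ →L[ℝ] ℂ) = L := by
    ext x
    rfl
  have hd : HasFDerivAt g (e : ℂ →L[ℝ] ℂ) z := by
    rw [he]
    exact (hgz.differentiableAt (by norm_num)).hasFDerivAt
  have hloc := hgz.to_localInverse hd (by norm_num)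
  have hev : h =ᶠ[nhds (g z)] hgz.localInverse hd (by norm_num) := by
    have hs := hgz.hasStrictFDerivAt' hd (by norm_num)
    have h1 : ∀ᶠ y in nhds (g z), g (hgz.localInverse hd (by norm_num) y) = y :=
      hs.eventually_right_inverse
    have h2 : ∀ᶠ y in nhds (g z), hgz.localInverse hd (by norm_num) y ∈ ball (0 : ℂ) 1 := by
      have h4 : ContinuousAt (hgz.localInverse hd (by norm_num)) (g z) := hloc.continuousAt
      have h5 : hgz.localInverse hd (by norm_num) (g z) = z := hgz.localInverse_apply_image hd (by norm_num)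
      apply h4.eventually
      rw [h5]
      exact isOpen_ball.mem_nhds hz
    filter_upwards [h1, h2] with y hy1 hy2
    exact hb.injOn (hh1 y) hy2 ((hh2 y).trans hy1.symm)
  exact (hloc.congr_of_eventuallyEq hev).of_le (by norm_num)

/-- the coefficients -/
noncomputable def cE (g : ℂ → ℂ) (p : ℝ × ℝ) : ℝ := ‖du g (eC.symm p)‖ ^ 2

noncomputable def cG (g : ℂ → ℂ) (p : ℝ × ℝ) : ℝ := ‖dv g (eC.symm p)‖ ^ 2

/-- the isometry -/
noncomputable def cX (g : ℂ → ℂ) (p : ℝ × ℝ) : ℝ × ℝ := eC (g (eC.symm p))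

lemma fderiv_cX (h3 : ContDiffOn ℝ 3 g (ball 0 1)) {p : ℝ × ℝ} (hp : p ∈ Disc) (q : ℝ × ℝ) :
    fderiv ℝ (cX g) p q = eC (fderiv ℝ g (eC.symm p) (eC.symm q)) := by
  have hz := (mem_Disc p).1 hp
  have hg : DifferentiableAt ℝ g (eC.symm p) :=
    (h3.contDiffAt (isOpen_ball.mem_nhds hz)).differentiableAt (by norm_num)
  have h1 : HasFDerivAt (cX g) ((eC : ℂ →L[ℝ] ℝ × ℝ) ∘L (fderiv ℝ g (eC.symm p) ∘L (eC.symm : ℝ × ℝ →L[ℝ] ℂ))) p :=
    (eC : ℂ →L[ℝ] ℝ × ℝ).hasFDerivAt.comp p (hg.hasFDerivAt.comp p (eC.symm : ℝ × ℝ →L[ℝ] ℂ).hasFDerivAt)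
  rw [h1.fderiv]
  rfl

lemma isom (hb : BijOn g (ball 0 1) univ) (h3 : ContDiffOn ℝ 3 g (ball 0 1))
    (hc : ∀ z ∈ ball (0 : ℂ) 1, ∃ t : ℝ, 0 < t ∧ du g z = -I * (t : ℂ) * dv g z ∧ dv g z ≠ 0) :
    IsIsometry (cE g) (cG g) Disc (cX g) ∧ BijOn (cX g) Disc univ := by
  have h10 : eC.symm ((1 : ℝ), (0 : ℝ)) = (1 : ℂ) := by
    rw [eC_symm_apply]; simp
  have h01 : eC.symm ((0 : ℝ), (1 : ℝ)) = I := by
    rw [eC_symm_apply]; simp
  have hbij : BijOn (cX g) Disc univ := by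
    refine ⟨fun _ _ => mem_univ _, ?_, ?_⟩
    · intro p hp q hq hpq
      have h1 : g (eC.symm p) = g (eC.symm q) := eC.injective hpq
      exact eC.symm.injective (hb.injOn ((mem_Disc p).1 hp) ((mem_Disc q).1 hq) h1)
    · intro w _
      obtain ⟨z, hz, hzw⟩ := hb.surjOn (mem_univ (eC.symm w))
      refine ⟨eC z, ?_, ?_⟩
      · rw [mem_Disc, eC.symm_apply_apply]
        exact hz
      · show eC (g (eC.symm (eC z))) = w
        rw [eC.symm_apply_apply, hzw, eC.apply_symm_apply]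
  refine ⟨⟨?_, hbij.injOn, ?_, ?_, ?_, ?_⟩, hbij⟩
  · rw [Disc_eq]
    exact eC.contDiff.comp_contDiffOn (h3.comp eC.symm.contDiff.contDiffOn (fun _ h => h))
  · rw [hbij.image_eq]
    exact isOpen_univ
  · intro p hp
    rw [fderiv_cX h3 hp, h10, normSq_eC]
    rfl
  · intro p hp
    rw [fderiv_cX h3 hp, fderiv_cX h3 hp, h10, h01]
    obtain ⟨t, ht, hu, hv⟩ := hc _ ((mem_Disc p).1 hp)
    have hu' : fderiv ℝ g (eC.symm p) 1 = -I * (t : ℂ) * fderiv ℝ g (eC.symm p) I := hu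
    rw [hu', eC_apply, eC_apply]
    simp
    ring
  · intro p hp
    rw [fderiv_cX h3 hp, h01, normSq_eC]
    rfl

lemma speed {z : ℂ} {t : ℝ} (h : du g z = -I * (t : ℂ) * dv g z) (q : ℝ × ℝ) :
    Real.sqrt (‖du g z‖ ^ 2 * q.1 ^ 2 + ‖dv g z‖ ^ 2 * q.2 ^ 2) = ‖fderiv ℝ g z (eC.symm q)‖ := by
  have h1 := lin_norm (fderiv ℝ g z) t h (eC.symm q)
  have h2 : (eC.symm q).re = q.1 := by rw [eC_symm_apply]; simp
  have h3 : (eC.symm q).im = q.2 := by rw [eC_symm_apply]; simp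
  rw [h2, h3] at h1
  have h4 : ‖du g z‖ ^ 2 * q.1 ^ 2 + ‖dv g z‖ ^ 2 * q.2 ^ 2 = ‖fderiv ℝ g z (eC.symm q)‖ ^ 2 := h1.symm
  rw [h4, Real.sqrt_sq (norm_nonneg _)]

lemma path_speed (h3 : ContDiffOn ℝ 3 g (ball 0 1))
    (hc : ∀ z ∈ ball (0 : ℂ) 1, ∃ t : ℝ, 0 < t ∧ du g z = -I * (t : ℂ) * dv g z ∧ dv g z ≠ 0)
    {γ : ℝ → ℝ × ℝ} (hγ : ContDiffOn ℝ 1 γ (Icc 0 1)) (hD : ∀ t ∈ Icc (0 : ℝ) 1, γ t ∈ Disc)
    {t : ℝ} (ht : t ∈ Icc (0 : ℝ) 1) :
    Real.sqrt (cE g (γ t) * (derivWithin γ (Icc 0 1) t).1 ^ 2 + cG g (γ t) * (derivWithin γ (Icc 0 1) t).2 ^ 2) =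
      ‖derivWithin (fun t => g (eC.symm (γ t))) (Icc 0 1) t‖ := by
  have hz := (mem_Disc _).1 (hD t ht)
  obtain ⟨s, hs, hu, hv⟩ := hc _ hz
  have h1 := speed hu (derivWithin γ (Icc 0 1) t)
  have h2 : HasDerivWithinAt γ (derivWithin γ (Icc 0 1) t) (Icc 0 1) t :=
    ((hγ t ht).differentiableWithinAt one_ne_zero).hasDerivWithinAt
  have hg : HasFDerivAt g (fderiv ℝ g (eC.symm (γ t))) (eC.symm (γ t)) :=
    ((h3.contDiffAt (isOpen_ball.mem_nhds hz)).differentiableAt (by norm_num)).hasFDerivAt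
  have h4 : HasDerivWithinAt (fun t => eC.symm (γ t)) (eC.symm (derivWithin γ (Icc 0 1) t)) (Icc 0 1) t :=
    (eC.symm : ℝ × ℝ →L[ℝ] ℂ).hasFDerivAt.comp_hasDerivWithinAt t h2
  have h5 : HasDerivWithinAt (fun t => g (eC.symm (γ t)))
      (fderiv ℝ g (eC.symm (γ t)) (eC.symm (derivWithin γ (Icc 0 1) t))) (Icc 0 1) t :=
    hg.comp_hasDerivWithinAt t h4
  rw [h5.derivWithin (uniqueDiffOn_Icc (by norm_num) t ht)]
  exact h1

lemma lengthDist_eq (hb : BijOn g (ball 0 1) univ) (h3 : ContDiffOn ℝ 3 g (ball 0 1))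
    (hc : ∀ z ∈ ball (0 : ℂ) 1, ∃ t : ℝ, 0 < t ∧ du g z = -I * (t : ℂ) * dv g z ∧ dv g z ≠ 0)
    {p q : ℝ × ℝ} (hp : p ∈ Disc) (hq : q ∈ Disc) :
    lengthDist (cE g) (cG g) p q = ‖g (eC.symm p) - g (eC.symm q)‖ := by
  have hcomp : ∀ γ : ℝ → ℝ × ℝ, ContDiffOn ℝ 1 γ (Icc 0 1) → (∀ t ∈ Icc (0 : ℝ) 1, γ t ∈ Disc) →
      ContDiffOn ℝ 1 (fun t => g (eC.symm (γ t))) (Icc 0 1) := by
    intro γ hγ hD
    refine (h3.of_le (by norm_num)).comp (eC.symm.contDiff.comp_contDiffOn hγ) ?_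
    intro t ht
    exact (mem_Disc _).1 (hD t ht)
  have hlen : ∀ γ : ℝ → ℝ × ℝ, ContDiffOn ℝ 1 γ (Icc 0 1) → (∀ t ∈ Icc (0 : ℝ) 1, γ t ∈ Disc) →
      ∫ t in (0 : ℝ)..1, Real.sqrt (cE g (γ t) * (derivWithin γ (Icc 0 1) t).1 ^ 2 +
        cG g (γ t) * (derivWithin γ (Icc 0 1) t).2 ^ 2) =
      ∫ t in (0 : ℝ)..1, ‖derivWithin (fun t => g (eC.symm (γ t))) (Icc 0 1) t‖ := by
    intro γ hγ hD
    apply intervalIntegral.integral_congr
    intro t ht
    rw [uIcc_of_le zero_le_one] at ht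
    exact path_speed h3 hc hγ hD ht
  have hleast : IsLeast {L | IsLength (cE g) (cG g) p q L} ‖g (eC.symm p) - g (eC.symm q)‖ := by
    constructor
    · obtain ⟨h, hh, hh1, hh2, hh3⟩ := inv_contDiff hb h3 hc
      set a := g (eC.symm p) with ha
      set b := g (eC.symm q) with hbq
      have hσ : ContDiff ℝ 1 (fun t : ℝ => a + (t : ℂ) * (b - a)) := by
        have h1 : ContDiff ℝ 1 (fun t : ℝ => (t : ℂ)) := Complex.ofRealCLM.contDiff
        exact contDiff_const.add (h1.mul contDiff_const)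
      let γ : ℝ → ℝ × ℝ := fun t => eC (h (a + (t : ℂ) * (b - a)))
      have hγ : ContDiff ℝ 1 γ := eC.contDiff.comp (hh.comp hσ)
      have hD : ∀ t ∈ Icc (0 : ℝ) 1, γ t ∈ Disc := by
        intro t _
        rw [mem_Disc]
        show eC.symm (eC _) ∈ _
        rw [eC.symm_apply_apply]
        exact hh1 _
      have hgγ : (fun t => g (eC.symm (γ t))) = fun t : ℝ => a + (t : ℂ) * (b - a) := by
        funext t
        show g (eC.symm (eC _)) = _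
        rw [eC.symm_apply_apply, hh2]
      refine ⟨γ, hγ.contDiffOn, hD, ?_, ?_, ?_⟩
      · show eC (h (a + ((0 : ℝ) : ℂ) * (b - a))) = p
        rw [Complex.ofReal_zero, zero_mul, add_zero, ha, hh3 _ ((mem_Disc p).1 hp), eC.apply_symm_apply]
      · show eC (h (a + ((1 : ℝ) : ℂ) * (b - a))) = q
        rw [Complex.ofReal_one, one_mul, add_sub_cancel, hbq, hh3 _ ((mem_Disc q).1 hq), eC.apply_symm_apply]
      · rw [hlen γ hγ.contDiffOn hD, hgγ]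
        have h1 : ∀ t ∈ Icc (0 : ℝ) 1, derivWithin (fun t : ℝ => a + (t : ℂ) * (b - a)) (Icc 0 1) t = b - a := by
          intro t ht
          have h2 : HasDerivAt (fun t : ℝ => a + (t : ℂ) * (b - a)) (b - a) t := by
            have h3 : HasDerivAt (fun t : ℝ => (t : ℂ)) 1 t := Complex.ofRealCLM.hasDerivAt
            have h4 := (h3.mul_const (b - a)).const_add a
            simpa using h4
          exact h2.hasDerivWithinAt.derivWithin (uniqueDiffOn_Icc (by norm_num) t ht)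
        have h2 : ∫ t in (0 : ℝ)..1, ‖derivWithin (fun t : ℝ => a + (t : ℂ) * (b - a)) (Icc 0 1) t‖ =
            ∫ _t in (0 : ℝ)..1, ‖b - a‖ := by
          apply intervalIntegral.integral_congr
          intro t ht
          rw [uIcc_of_le zero_le_one] at ht
          show ‖derivWithin (fun t : ℝ => a + (t : ℂ) * (b - a)) (Icc 0 1) t‖ = _
          rw [h1 t ht]
        rw [h2]
        simp [norm_sub_rev]
    · rintro L ⟨γ, hγ, hD, h0, h1, rfl⟩
      rw [hlen γ hγ hD]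
      have h2 := intervalIntegral.integral_derivWithin_Icc_of_contDiffOn_Icc (hcomp γ hγ hD) zero_le_one
      have h4 : ‖∫ t in (0 : ℝ)..1, derivWithin (fun t => g (eC.symm (γ t))) (Icc 0 1) t‖ ≤
          ∫ t in (0 : ℝ)..1, ‖derivWithin (fun t => g (eC.symm (γ t))) (Icc 0 1) t‖ :=
        intervalIntegral.norm_integral_le_integral_norm zero_le_one
      rw [h2] at h4
      simp only [h0, h1] at h4
      rw [norm_sub_rev]
      exact h4
  exact hleast.csInf_eq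

end

theorem t_FIN : S_FIN := by
  intro g hb h3 hc
  obtain ⟨hiso, hbij⟩ := isom hb h3 hc
  have hf2 : ContDiffOn ℝ 2 (fderiv ℝ g) (ball 0 1) := h3.fderiv_of_isOpen isOpen_ball (by norm_num)
  have hE : ∀ w : ℂ, ContDiffOn ℝ 2 (fun p : ℝ × ℝ => ‖fderiv ℝ g (eC.symm p) w‖ ^ 2) Disc := by
    intro w
    have h1 : ContDiffOn ℝ 2 (fun z => fderiv ℝ g z w) (ball 0 1) := hf2.clm_apply contDiffOn_const
    have h2 : ContDiffOn ℝ 2 (fun z => ‖fderiv ℝ g z w‖ ^ 2) (ball 0 1) := h1.norm_sq ℝ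
    rw [Disc_eq]
    exact h2.comp eC.symm.contDiff.contDiffOn (fun _ h => h)
  refine ⟨cE g, cG g, hE 1, hE I, ?_, ?_, ?_, cX g, hiso, hbij⟩
  · intro p hp
    obtain ⟨t, ht, hu, hv⟩ := hc _ ((mem_Disc p).1 hp)
    have hu0 : du g (eC.symm p) ≠ 0 := by
      rw [hu]
      refine mul_ne_zero (mul_ne_zero (neg_ne_zero.mpr I_ne_zero) ?_) hv
      exact_mod_cast ht.ne'
    constructor
    · show 0 < ‖du g (eC.symm p)‖ ^ 2
      positivity
    · show 0 < ‖dv g (eC.symm p)‖ ^ 2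
      positivity
  · intro p hp
    exact ⟨Disc, isOpen_Disc, hp, Subset.rfl, cX g, hiso⟩
  · intro x hx hcau
    have hy : CauchySeq (fun n => g (eC.symm (x n))) := by
      rw [Metric.cauchySeq_iff]
      intro ε hε
      obtain ⟨N, hN⟩ := hcau ε hε
      refine ⟨N, fun m hm n hn => ?_⟩
      rw [dist_eq_norm, ← lengthDist_eq hb h3 hc (hx m) (hx n)]
      exact hN m hm n hn
    obtain ⟨w, hw⟩ := cauchySeq_tendsto_of_complete hy
    obtain ⟨z, hz, rfl⟩ := hb.surjOn (mem_univ w)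
    have hp : eC z ∈ Disc := by
      rw [mem_Disc, eC.symm_apply_apply]
      exact hz
    refine ⟨eC z, hp, ?_⟩
    have h1 : (fun n => lengthDist (cE g) (cG g) (x n) (eC z)) = fun n => ‖g (eC.symm (x n)) - g z‖ := by
      funext n
      rw [lengthDist_eq hb h3 hc (hx n) hp, eC.symm_apply_apply]
    rw [h1]
    exact tendsto_iff_norm_sub_tendsto_zero.mp hw

end Pool.Agent.Q264.PD
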