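import Pool.Agent.Q264.PD.Scale

/-!
# Project PD: job KEY
-/

open MeasureTheory Complex Filter Metric Set
open scoped ContDiff

namespace Pool.Agent.Q264.PD

theorem t_KEY (hGR : S_GR) (hCOMP : S_COMP) : S_KEY := by
  obtain ⟨C, hC1, hC⟩ := hGR
  refine ⟨C, hC1, ?_⟩
  intro Q₁ Q₂ f₁ f₂ h1 h2 h10 h20 hv1 hv2 ρ ρ' η hρ hρρ hη hη4 hQ hfar z z' hz hz'
  have hρ' : 0 < ρ' := hρ.trans hρρ
  obtain ⟨hopen, G, hGd, hGi, hGf⟩ := hCOMP Q₁ Q₂ f₁ f₂ h1 h2 ρ' hρ' hQ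
  -- the radius `b`
  have hcl : IsClosed {z : ℂ | ρ' ≤ ‖z‖} := isClosed_le continuous_const continuous_norm
  have hne : {z : ℂ | ρ' ≤ ‖z‖}.Nonempty := ⟨(ρ' : ℂ), by
    show ρ' ≤ ‖(ρ' : ℂ)‖
    rw [Complex.norm_real]; exact le_abs_self _⟩
  have hmin : ∃ z₀ ∈ {z : ℂ | ρ' ≤ ‖z‖}, ∀ y ∈ {z : ℂ | ρ' ≤ ‖z‖}, ‖f₁ z₀‖ ≤ ‖f₁ y‖ := by
    have ht : Tendsto (fun z => ‖f₁ z‖) (cocompact ℂ) atTop := tendsto_norm_cocompact_atTop.comp h1.proper
    obtain ⟨y₀, hy₀⟩ := hne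
    have := h1.smooth.continuous.norm.continuousOn.exists_isMinOn' hcl hy₀
      ((ht.mono_left inf_le_left).eventually (eventually_ge_atTop ‖f₁ y₀‖))
    obtain ⟨z₀, hz₀, hm⟩ := this
    exact ⟨z₀, hz₀, fun y hy => hm hy⟩
  obtain ⟨z₀, hz₀, hm⟩ := hmin
  set b := ‖f₁ z₀‖ with hb
  have hz₀0 : z₀ ≠ 0 := by
    rintro rfl
    have : ρ' ≤ ‖(0 : ℂ)‖ := hz₀
    rw [norm_zero] at this
    linarith
  have hb0 : 0 < b := by
    rw [hb, norm_pos_iff]
    intro h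
    exact hz₀0 (h1.inj (h.trans h10.symm))
  have hsub : ball (0 : ℂ) b ⊆ f₁ '' ball 0 ρ' := by
    intro w hw
    obtain ⟨y, rfl⟩ := h1.surj w
    refine ⟨y, ?_, rfl⟩
    rw [mem_ball_zero_iff] at hw ⊢
    by_contra hy
    rw [not_lt] at hy
    exact absurd (hm y hy) (not_le.mpr hw)
  have hG0 : G 0 = 0 := by
    have := (hGf 0 (mem_ball_self hρ')).1
    rwa [h10, h20] at this
  have hG1 : deriv G 0 = 1 := by
    have := (hGf 0 (mem_ball_self hρ')).2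
    rw [h10, hv1, hv2] at this
    exact mul_right_cancel₀ I_ne_zero (this.trans (one_mul I).symm)
  have hder := hC G b hb0 (hGd.mono hsub) (hGi.mono hsub) hG0 hG1
  -- points
  have hmem : ∀ y : ℂ, ‖y‖ ≤ ρ → f₁ y ∈ closedBall (0 : ℂ) (η * b) := fun y hy => by
    rw [mem_closedBall_zero_iff]
    exact hfar y z₀ hy hz₀
  have hbd : ∀ w ∈ closedBall (0 : ℂ) (η * b), ‖deriv (fun w => G w - w) w‖ ≤ C * η := by
    intro w hw
    rw [mem_closedBall_zero_iff] at hw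
    have hwb : ‖w‖ ≤ b / 4 := hw.trans (by nlinarith)
    have hwball : w ∈ ball (0 : ℂ) b := by
      rw [mem_ball_zero_iff]; linarith
    have hdiff : DifferentiableAt ℂ G w := (hGd w (hsub hwball)).differentiableAt (hopen.mem_nhds (hsub hwball))
    have e : deriv (fun w => G w - w) w = deriv G w - 1 := by
      rw [deriv_fun_sub hdiff differentiableAt_fun_id, deriv_id'']
    rw [e]
    refine (hder w hwb).trans ?_
    rw [div_le_iff₀ hb0]
    have hC0 : 0 ≤ C := by linarith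
    nlinarith [mul_le_mul_of_nonneg_left hw hC0]
  have hdf : ∀ w ∈ closedBall (0 : ℂ) (η * b), DifferentiableAt ℂ (fun w => G w - w) w := by
    intro w hw
    rw [mem_closedBall_zero_iff] at hw
    have hwball : w ∈ ball (0 : ℂ) b := by
      rw [mem_ball_zero_iff]
      have : ‖w‖ ≤ b / 4 := hw.trans (by nlinarith)
      linarith
    have hdiff : DifferentiableAt ℂ G w := (hGd w (hsub hwball)).differentiableAt (hopen.mem_nhds (hsub hwball))
    exact hdiff.sub differentiableAt_fun_id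
  have hmv := (convex_closedBall (0 : ℂ) (η * b)).norm_image_sub_le_of_norm_deriv_le hdf hbd
    (hmem z' hz') (hmem z hz)
  have hzb : z ∈ ball (0 : ℂ) ρ' := by rw [mem_ball_zero_iff]; linarith
  have hzb' : z' ∈ ball (0 : ℂ) ρ' := by rw [mem_ball_zero_iff]; linarith
  simp only [(hGf z hzb).1, (hGf z' hzb').1] at hmv
  have e : (f₂ z - f₂ z') - (f₁ z - f₁ z') = f₂ z - f₁ z - (f₂ z' - f₁ z') := by ring
  rw [e]
  exact hmv

end Pool.Agent.Q264.PD
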