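import Pool.Agent.Q264.PD.Key
import Pool.Agent.Helper469.Univalent

/-!
# Project PD: job LIMB
-/

open MeasureTheory Complex Filter Metric Set
open scoped ContDiff

namespace Pool.Agent.Q264.PD

lemma limb_local (hCOMP : S_COMP) {ρ : ℕ → ℝ} {Q : ℕ → ℂ → ℝ} {f : ℕ → ℂ → ℂ} (hT : Tower ρ Q f) {g : ℂ → ℂ}
    (hg : ∀ n, TendstoUniformlyOn f g atTop (closedBall 0 (ρ n))) (hi : InjOn g (ball 0 1)) (n : ℕ) :
    ∃ G : ℂ → ℂ, IsOpen (f n '' ball 0 (ρ n)) ∧ DifferentiableOn ℂ G (f n '' ball 0 (ρ n)) ∧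
      (∀ z ∈ ball (0 : ℂ) (ρ n), G (f n z) = g z) ∧ ∀ z ∈ ball (0 : ℂ) (ρ n), deriv G (f n z) ≠ 0 := by
  have hρ0 : 0 < ρ n := by linarith [hT.lo n]
  have hk : ∀ k, IsOpen (f n '' ball 0 (ρ n)) ∧ ∃ G : ℂ → ℂ,
      DifferentiableOn ℂ G (f n '' ball 0 (ρ n)) ∧ InjOn G (f n '' ball 0 (ρ n)) ∧
      ∀ z ∈ ball (0 : ℂ) (ρ n), G (f n z) = f (n + k) z ∧ deriv G (f n z) * dv (f n) z = dv (f (n + k)) z := by
    intro k
    refine hCOMP (Q n) (Q (n + k)) (f n) (f (n + k)) (hT.map n) (hT.map (n + k)) (ρ n) hρ0 ?_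
    intro z hz
    rw [mem_ball_zero_iff] at hz
    exact ⟨hT.agree n (n + k) (Nat.le_add_right n k) z hz.le, hT.pos n z⟩
  have hopen := (hk 0).1
  choose G hGd hGi hGf using fun k => (hk k).2
  obtain ⟨h, hh⟩ := (hT.map n).surj.hasRightInverse
  have hh' : ∀ w, f n (h w) = w := hh
  have hz : ∀ z, h (f n z) = z := fun z => (hT.map n).inj (hh' _)
  have hlim : TendstoUniformlyOn G (fun w => g (h w)) atTop (f n '' ball 0 (ρ n)) := by
    rw [Metric.tendstoUniformlyOn_iff]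
    intro ε hε
    have h1 := (Metric.tendstoUniformlyOn_iff.mp (hg n)) ε hε
    have h2 : ∀ᶠ k in atTop, ∀ x ∈ closedBall (0 : ℂ) (ρ n), dist (g x) (f (n + k) x) < ε :=
      (tendsto_atTop_mono (fun k => Nat.le_add_left k n) tendsto_id).eventually h1
    filter_upwards [h2] with k hk'
    rintro w ⟨z, hz', rfl⟩
    rw [hz, (hGf k z hz').1]
    exact hk' z (ball_subset_closedBall hz')
  have hd : DifferentiableOn ℂ (fun w => g (h w)) (f n '' ball 0 (ρ n)) :=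
    hlim.tendstoLocallyUniformlyOn.differentiableOn (Eventually.of_forall hGd) hopen
  have hsub : ball (0 : ℂ) (ρ n) ⊆ ball 0 1 := ball_subset_ball (hT.hi n).le
  have hinj : InjOn (fun w => g (h w)) (f n '' ball 0 (ρ n)) := by
    rintro w ⟨z, hz1, rfl⟩ w' ⟨z', hz2, rfl⟩ hww
    have hww' : g (h (f n z)) = g (h (f n z')) := hww
    rw [hz, hz] at hww'
    rw [hi (hsub hz1) (hsub hz2) hww']
  refine ⟨fun w => g (h w), hopen, hd, fun z _ => congrArg g (hz z), ?_⟩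
  intro z hz1
  exact Pool.Agent.Helper469.Univalent.deriv_ne_zero_of_injOn hopen hd hinj ⟨z, hz1, rfl⟩

theorem t_LIMB (hCOMP : S_COMP) : S_LIMB := by
  intro ρ Q f hT g hg hi
  have hloc : ∀ z ∈ ball (0 : ℂ) 1, ContDiffAt ℝ 3 g z ∧
      ∃ t : ℝ, 0 < t ∧ du g z = -I * (t : ℂ) * dv g z ∧ dv g z ≠ 0 := by
    intro z hz
    rw [mem_ball_zero_iff] at hz
    obtain ⟨n, hn⟩ := (hT.lim.eventually (lt_mem_nhds hz)).exists
    have hzn : z ∈ ball (0 : ℂ) (ρ n) := by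
      rw [mem_ball_zero_iff]
      exact hn
    obtain ⟨G, hopen, hGd, hGf, hGn⟩ := limb_local hCOMP hT hg hi n
    have hev : g =ᶠ[nhds z] fun y => G (f n y) := by
      filter_upwards [isOpen_ball.mem_nhds hzn] with y hy
      exact (hGf y hy).symm
    have hw : f n z ∈ f n '' ball 0 (ρ n) := ⟨z, hzn, rfl⟩
    have hGa : AnalyticAt ℂ G (f n z) := hGd.analyticAt (hopen.mem_nhds hw)
    have hGc : ContDiffAt ℝ 3 G (f n z) := (hGa.contDiffAt (n := 3)).restrict_scalars ℝ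
    have hfc : ContDiffAt ℝ 3 (f n) z := (hT.map n).smooth.contDiffAt
    have hc : ContDiffAt ℝ 3 g z := (hGc.comp z hfc).congr_of_eventuallyEq hev
    have hG1 : HasFDerivAt G ((ContinuousLinearMap.toSpanSingleton ℂ (deriv G (f n z)) : ℂ →L[ℂ] ℂ).restrictScalars ℝ)
        (f n z) := (hGa.differentiableAt.hasDerivAt.hasFDerivAt).restrictScalars ℝ
    have hf1 : HasFDerivAt (f n) (fderiv ℝ (f n) z) z := (hfc.differentiableAt (by norm_num)).hasFDerivAt
    have hfd : ∀ x, fderiv ℝ g z x = deriv G (f n z) * fderiv ℝ (f n) z x := by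
      intro x
      have h9 : HasFDerivAt (fun y => G (f n y)) _ z := hG1.comp z hf1
      rw [hev.fderiv_eq, h9.fderiv]
      simp [mul_comm]
    refine ⟨hc, Q n z, hT.pos n z, ?_, ?_⟩
    · unfold du dv
      rw [hfd, hfd]
      have := (hT.map n).conf z
      unfold du dv at this
      rw [this]
      ring
    · unfold dv
      rw [hfd]
      exact mul_ne_zero (hGn z hzn) ((hT.map n).ne z)
  exact ⟨fun z hz => (hloc z hz).1.contDiffWithinAt, fun z hz => (hloc z hz).2⟩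

end Pool.Agent.Q264.PD
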