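import Pool.Agent.Q264.PD.Stm

/-!
# Project PD: the assembly
-/

open MeasureTheory Complex Filter Metric Set
open scoped ContDiff FourierTransform ENNReal

namespace Pool.Agent.Q264.PD

theorem t_LAM (hFIX : S_FIX) (hLA : S_LA) (hLB : S_LB) : S_LAM := by
  intro μ g k hk0 hk1 hμ hμc hμk hg hgc
  obtain ⟨H, hH, hB, hw, he⟩ := hFIX μ g k 6 hk0 hk1 hμ hμc hμk hg hgc
  obtain ⟨l, hl3, hl0, hl⟩ := hLA H hH hB hw
  refine ⟨l, hl3, hl0, fun x => ?_⟩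
  rw [(hl x).1, (hl x).2]
  exact hLB μ g H hμ hμc hg hgc hH hB hw he x

theorem t_FINAL (hSEQ : S_SEQ) (hMAP : S_MAP) (hSCALE : S_SCALE) (hKEY : S_KEY) (hLIMA : S_LIMA)
    (hLIMB : S_LIMB) (hFIN : S_FIN) : Final := by
  obtain ⟨C, hC1, hC⟩ := hKEY
  have hC0 : 0 < C := by linarith
  have hη : ∀ n : ℕ, 0 < (1 / 2 : ℝ) ^ (n + 2) / C := fun n => by positivity
  obtain ⟨ρ, φ, Q, hmono, hρ, hlim, hφ, hQ, hag, hQ0, hen⟩ :=
    hSEQ (fun n => (1 / 2 : ℝ) ^ (n + 2) / C / 100) (fun n => by have := hη n; positivity)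
  have hmaps : ∀ n, ∃ f : ℂ → ℂ, IsMap (Q n) f ∧ f 0 = 0 ∧ dv f 0 = I := fun n =>
    hMAP (Q n) (ρ n) (hQ n).1 (hQ n).2.1 (hQ n).2.2
  choose f hf hf0 hf1 using hmaps
  have hpow : ∀ n : ℕ, (1 / 2 : ℝ) ^ (n + 2) ≤ 1 / 4 := fun n => by
    have : (1 / 2 : ℝ) ^ (n + 2) ≤ (1 / 2 : ℝ) ^ 2 :=
      pow_le_pow_of_le_one (by norm_num) (by norm_num) (by omega)
    linarith [this, show ((1 : ℝ) / 2) ^ 2 = 1 / 4 by norm_num]
  have hηle : ∀ n : ℕ, (1 / 2 : ℝ) ^ (n + 2) / C ≤ (1 / 2 : ℝ) ^ (n + 2) := fun n =>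
    div_le_self (by positivity) hC1
  have hfar : ∀ n m, n < m → ∀ z z₀ : ℂ, ‖z‖ ≤ ρ n → ρ (n + 1) ≤ ‖z₀‖ →
      ‖f m z‖ ≤ ((1 / 2 : ℝ) ^ (n + 2) / C) * ‖f m z₀‖ := by
    intro n m hnm z z₀ hz hz₀
    have h1 := hSCALE (Q m) (f m) (hf m) (hQ m).2.1 (hf0 m) (φ n) (ρ n) (ρ (n + 1))
      ((hφ n).1.of_le (by exact_mod_cast le_top)) (by linarith [(hρ n).1]) (hmono (Nat.lt_succ_self n))
      (hφ n).2.1 (hφ n).2.2 z z₀ hz hz₀
    have h2 := hen n m hnm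
    have h3 : min (‖f m z‖ / ‖f m z₀‖) 1 ≤ (1 / 2 : ℝ) ^ (n + 2) / C := by
      refine h1.trans ?_
      have : 100 * Energy (Q m) (φ n) ≤ 100 * ((1 / 2 : ℝ) ^ (n + 2) / C / 100) := by linarith
      linarith
    have h4 : (1 / 2 : ℝ) ^ (n + 2) / C < 1 := by linarith [hηle n, hpow n]
    have h5 : ‖f m z‖ / ‖f m z₀‖ ≤ (1 / 2 : ℝ) ^ (n + 2) / C := by
      rcases min_le_iff.mp h3 with h | h
      · exact h
      · linarith
    have hz0 : z₀ ≠ 0 := by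
      rintro rfl
      rw [norm_zero] at hz₀
      linarith [(hρ (n + 1)).1]
    have h6 : 0 < ‖f m z₀‖ := by
      rw [norm_pos_iff]
      intro h
      exact hz0 ((hf m).inj (h.trans (hf0 m).symm))
    rwa [div_le_iff₀ h6] at h5
  have htower : Tower ρ Q f := by
    refine ⟨hmono, fun n => (hρ n).1, fun n => (hρ n).2, hlim, fun n => (hQ n).2.1, hag, hf, hf0, ?_, ?_⟩
    · intro n m hnm z z₀ hz hz₀
      refine (hfar n m hnm z z₀ hz hz₀).trans ?_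
      exact mul_le_mul_of_nonneg_right (hηle n) (norm_nonneg _)
    · intro n m m' hm hm' z z' hz hz'
      have h := hC (Q m) (Q m') (f m) (f m') (hf m) (hf m') (hf0 m) (hf0 m') (hf1 m) (hf1 m')
        (ρ n) (ρ (n + 1)) ((1 / 2 : ℝ) ^ (n + 2) / C) (by linarith [(hρ n).1]) (hmono (Nat.lt_succ_self n))
        (hη n) ((hηle n).trans (hpow n))
        (fun z hz => by
          have hz1 : ‖z‖ ≤ ρ (n + 1) := by
            rw [mem_ball_zero_iff] at hz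
            exact hz.le
          refine ⟨?_, (hQ m).2.1 z⟩
          rw [hag (n + 1) m' hm' z hz1, hag (n + 1) m hm z hz1])
        (fun z z₀ hz hz₀ => hfar n m hm z z₀ hz hz₀) z z' hz hz'
      rwa [mul_div_cancel₀ _ hC0.ne'] at h
  obtain ⟨g, hg1, hg2, -⟩ := hLIMA ρ Q f htower
  obtain ⟨hg3, hg4⟩ := hLIMB ρ Q f htower g hg1 hg2.injOn
  exact hFIN g hg2 hg3 hg4

end Pool.Agent.Q264.PD
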