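import Pool.Agent.Q264.PD.Comp

/-!
# Project PD: job SCALE
-/

open MeasureTheory Complex Filter Metric Set
open scoped ContDiff

namespace Pool.Agent.Q264.PD

lemma isPreconnected_outside {r : ℝ} (hr : 0 < r) : IsPreconnected {z : ℂ | r ≤ ‖z‖} := by
  have h1 : IsPreconnected ((Ici r) ×ˢ (univ : Set ℝ)) :=
    isPreconnected_Ici.prod isPreconnected_univ
  have h2 : {z : ℂ | r ≤ ‖z‖} = (fun p : ℝ × ℝ => (p.1 : ℂ) * Complex.exp (p.2 * I)) '' ((Ici r) ×ˢ (univ : Set ℝ)) := by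
    ext z
    constructor
    · intro hz
      exact ⟨(‖z‖, arg z), ⟨hz, mem_univ _⟩, Complex.norm_mul_exp_arg_mul_I z⟩
    · rintro ⟨p, ⟨hp, -⟩, rfl⟩
      have hp0 : 0 ≤ p.1 := hr.le.trans hp
      show r ≤ ‖(p.1 : ℂ) * Complex.exp (p.2 * I)‖
      rw [norm_mul, Complex.norm_exp_ofReal_mul_I, mul_one, Complex.norm_real, Real.norm_of_nonneg hp0]
      exact hp
  rw [h2]
  exact h1.image _ (by fun_prop)

theorem t_SCALE (hRING : S_RING) (hEN : S_EN) : S_SCALE := by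
  intro Q f hf hQ h0 φ ρ ρ' hφ hρ hρρ h1 h2 z z₀ hz hz₀
  have hc : HasCompactSupport φ := by
    refine HasCompactSupport.intro (isCompact_closedBall (0 : ℂ) ρ') ?_
    intro w hw
    apply h2
    rw [mem_closedBall_zero_iff, not_le] at hw
    exact hw.le
  obtain ⟨Φ, hΦ, hΦc, hΦf, hD⟩ := hEN Q f hf hQ φ hφ hc
  rw [← hD]
  refine hRING Φ hΦ hΦc (f '' closedBall 0 ρ) (f '' {z : ℂ | ρ' ≤ ‖z‖}) ?_ ?_ (f z₀) (f z) ?_ ?_ ?_ ?_ ?_ ?_
  · exact (convex_closedBall (0 : ℂ) ρ).isPreconnected.image _ hf.smooth.continuous.continuousOn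
  · exact (isPreconnected_outside (hρ.trans hρρ)).image _ hf.smooth.continuous.continuousOn
  · exact ⟨0, mem_closedBall_self hρ.le, h0⟩
  · exact ⟨z, mem_closedBall_zero_iff.mpr hz, rfl⟩
  · exact ⟨z₀, hz₀, rfl⟩
  · intro R
    obtain ⟨B, hB⟩ := ((isCompact_closedBall (0 : ℂ) ρ').image hf.smooth.continuous).isBounded.exists_norm_le
    obtain ⟨z', hz'⟩ := hf.surj (((max R B + 1 : ℝ)) : ℂ)
    have hn : max R B + 1 ≤ ‖f z'‖ := by
      rw [hz', Complex.norm_real]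
      exact le_abs_self _
    refine ⟨f z', ⟨z', ?_, rfl⟩, ?_⟩
    · show ρ' ≤ ‖z'‖
      by_contra hlt
      rw [not_le] at hlt
      have := hB (f z') ⟨z', mem_closedBall_zero_iff.mpr hlt.le, rfl⟩
      linarith [le_max_right R B]
    · linarith [le_max_left R B]
  · rintro w ⟨y, hy, rfl⟩
    rw [hΦf]
    exact h1 y (mem_closedBall_zero_iff.mp hy)
  · rintro w ⟨y, hy, rfl⟩
    rw [hΦf]
    exact h2 y hy

end Pool.Agent.Q264.PD
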