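import Pool.Agent.Q264.PD.Def

/-!
# Project PD: statements with proofs (MP_a5fed0_gt)

Goal: `Final` (Def.lean): the open disc has a complete flat metric `E du² + G dv²`.
Idea: for a suitable smooth `Q > 0` the metric `Q² du² + dv²` on the disc is conformally parabolic, hence the
disc with this metric is conformally the whole plane.  All the analysis is in the plane `ℂ`, `z = u + i v`.
A job `X` proves `theorem t_X : S_X` (hypotheses `(hY : S_Y)` where indicated are black boxes).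
-/

open MeasureTheory Complex Filter Metric Set
open scoped ContDiff FourierTransform ENNReal

namespace Pool.Agent.Q264.PD

/-! ## A. The weight -/

/-- JOB RECT.  Rectangles.  Proof: choose `ρ` with `r < ρ < 1`, a large `n : ℕ` and for `j = 0, 1, …, J - 1` with
`j / n ≤ r`: `α_j = (j + 1) / n`, `β_j = √(r² - (j / n)²)`.  If `‖z‖ ≤ r` let `j = ⌊n |re z|⌋`: then
`|re z| ≤ α_j` and `|im z| ≤ √(r² - (re z)²) ≤ β_j`.  And `α_j² + β_j² = r² + (2 j + 1) / n² ≤ r² + 3 / n`, so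
`(α_j + τ)² + (β_j + τ)² ≤ r² + 3 / n + 8 τ + 2 τ² ≤ ρ²` for large `n` and small `τ`. -/
def S_RECT : Prop := ∀ r : ℝ, 0 < r → r < 1 → ∃ (J : ℕ) (α β : Fin J → ℝ) (τ ρ : ℝ),
  0 < τ ∧ r < ρ ∧ ρ < 1 ∧ (∀ j, 0 ≤ α j ∧ 0 ≤ β j) ∧
  (∀ z : ℂ, ‖z‖ ≤ r → ∃ j, |z.re| ≤ α j ∧ |z.im| ≤ β j) ∧ ∀ j, (α j + τ) ^ 2 + (β j + τ) ^ 2 ≤ ρ ^ 2

/-- JOB CUT (uses `S_RECT`).  Cutoff functions in the disc with small `∫ |φ_u φ_v|`.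
Proof.  Take `J, α, β, τ, ρ` from `S_RECT`, `N ≥ 1` large, `δ = τ / N`.  For `c ≥ δ` let
`a_c(u) = s((c - u) / δ) s((c + u) / δ)` with `s = Real.smoothTransition`; smooth, values in `[0, 1]`, equal to `1` for
`|u| ≤ c - δ` and to `0` for `|u| ≥ c`, and `∫ |a_c'| ≤ 2` (for `u ≥ 0` the second factor is `1`, for `u ≤ 0` the first,
and the other one is monotone).  For `i < N` let `c_{j,i} = α_j + (i + 1) δ`, `d_{j,i} = β_j + (i + 1) δ` and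
`φ_i(z) = 1 - ∏_j (1 - a_{c_{j,i}}(re z) a_{d_{j,i}}(im z))`, `φ = (1 / N) ∑_{i < N} φ_i`.
Let `U_i = ⋃_j {|re z| ≤ α_j + i δ, |im z| ≤ β_j + i δ}`: `φ_i = 1` on `U_i`, `φ_i = 0` outside `U_{i+1}`,
`0 ≤ φ_i ≤ 1`; so `φ = 1` for `‖z‖ ≤ r` and `φ = 0` for `‖z‖ ≥ ρ'` where `ρ' ∈ (ρ, 1)` is arbitrary (`U_N` is contained in
the closed disc of radius `ρ`).  At a point of `U_i` the function `φ_i` is maximal, at a point outside `U_{i+1}`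
it is minimal, so its derivative vanishes there; as `U_0 ⊆ U_1 ⊆ …`, at each `z` at most one `φ_i` has a derivative
different from `0`.  Hence `|φ_u φ_v| = (1 / N²) ∑_i |φ_{i,u} φ_{i,v}|`.  Further `|φ_{i,u}| ≤ ∑_j |a_{c_{j,i}}'(re z)|`,
`|φ_{i,v}| ≤ ∑_k |a_{d_{k,i}}'(im z)|` (product rule, all the factors are in `[0, 1]`), so by Fubini
`∫ |φ_{i,u} φ_{i,v}| ≤ ∑_{j,k} 2 · 2 = 4 J²`, and `∫ |φ_u φ_v| ≤ 4 J² / N ≤ ε` for large `N`. -/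
def S_CUT : Prop := ∀ r : ℝ, 0 < r → r < 1 → ∀ ε : ℝ, 0 < ε → ∃ (φ : ℂ → ℝ) (ρ : ℝ),
  r < ρ ∧ ρ < 1 ∧ ContDiff ℝ ∞ φ ∧ (∀ z, ‖z‖ ≤ r → φ z = 1) ∧ (∀ z, ρ ≤ ‖z‖ → φ z = 0) ∧
  (∫ z, |du φ z * dv φ z|) ≤ ε

/-- JOB QQ.  The weight adapted to `φ`.  Proof: `Q = √((φ_u² + η) / (φ_v² + η))` with a small `η > 0`.  It is smooth
and positive, and `1` where `φ_u = φ_v = 0`.  `φ_u² / Q ≤ |φ_u| √(φ_v² + η) ≤ |φ_u φ_v| + √η |φ_u|` and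
`Q φ_v² ≤ |φ_v| √(φ_u² + η) ≤ |φ_u φ_v| + √η |φ_v|`; integrate (all functions are continuous with compact support). -/
def S_QQ : Prop := ∀ φ : ℂ → ℝ, ContDiff ℝ ∞ φ → HasCompactSupport φ → ∀ ε : ℝ, 0 < ε → ∃ Q : ℂ → ℝ,
  ContDiff ℝ ∞ Q ∧ (∀ z, 0 < Q z) ∧ (∀ z, fderiv ℝ φ z = 0 → Q z = 1) ∧
  Energy Q φ ≤ 2 * (∫ z, |du φ z * dv φ z|) + ε

/-- JOB SEQ (uses `S_CUT`, `S_QQ`).  The sequence.  Proof.  From `S_CUT` and `S_QQ`: for `0 < r < 1`, `ε > 0` there are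
`φ`, `ρ` as in `S_CUT` and a smooth `q > 0`, `q = 1` where `φ' = 0` (in particular for `‖z‖ ≤ r` and for `‖z‖ ≥ ρ`; on
the two spheres by continuity or because `φ` is maximal, minimal there if one uses `0 ≤ φ ≤ 1`; the derivative is continuous
and vanishes in the open sets `‖z‖ < r`, `‖z‖ > ρ`), with `Energy q φ ≤ ε`.  Start with `ρ_0 = 1/2`.  Given `ρ_n` use this with
`r = max (ρ_n) (1 - 1 / (n + 3))` and `ε_n`: we get `φ_n`, `q_n`, `ρ_{n+1} ∈ (r, 1)`.  Put `Q_m = ∏_{n < m} q_n`.  At a point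
`z` at most one factor `q_n(z)` is different from `1` (then `ρ_n < ‖z‖ < ρ_{n+1}`).  Where the derivative of `φ_n` is
not `0` we have `Q_m = q_n` for `m > n`, so `Energy Q_m φ_n = Energy q_n φ_n ≤ ε_n`. -/
def S_SEQ : Prop := ∀ ε : ℕ → ℝ, (∀ n, 0 < ε n) → ∃ (ρ : ℕ → ℝ) (φ : ℕ → ℂ → ℝ) (Q : ℕ → ℂ → ℝ),
  StrictMono ρ ∧ (∀ n, 1 / 2 ≤ ρ n ∧ ρ n < 1) ∧ Tendsto ρ atTop (nhds 1) ∧
  (∀ n, ContDiff ℝ ∞ (φ n) ∧ (∀ z, ‖z‖ ≤ ρ n → φ n z = 1) ∧ ∀ z, ρ (n + 1) ≤ ‖z‖ → φ n z = 0) ∧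
  (∀ n, ContDiff ℝ ∞ (Q n) ∧ (∀ z, 0 < Q n z) ∧ ∀ z, ρ n ≤ ‖z‖ → Q n z = 1) ∧
  (∀ n m, n ≤ m → ∀ z, ‖z‖ ≤ ρ n → Q m z = Q n z) ∧ (∀ z, Q 0 z = 1) ∧
  ∀ n m, n < m → Energy (Q m) (φ n) ≤ ε n

/-! ## B. Conformal maps of the plane (smooth measurable Riemann mapping theorem) -/

/-- JOB YG.  Young's inequality `L¹ * L² → L²`.  Proof: Cauchy-Schwarz
`(∫ k(ξ-η) f(η) dη)² ≤ (∫ k(ξ-η) dη) (∫ k(ξ-η) f(η)² dη) = (∫ k) (∫ k(ξ-η) f(η)² dη)`, integrate over `ξ`, Tonelli. -/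
def S_YG : Prop := ∀ k f : ℂ → ℝ≥0∞, Measurable k → AEMeasurable f →
  (∫⁻ ξ, (∫⁻ η, k (ξ - η) * f η) ^ 2) ≤ (∫⁻ ζ, k ζ) ^ 2 * ∫⁻ η, f η ^ 2

/-- JOB CB.  Convolution with the Fourier transform of `μ` has norm at most `sup |μ|` on `L²`.
Proof.  `M = 𝓕 μ` is a Schwartz function.  (1) Let `F ∈ L¹ ∩ L²`.  Then `C(ξ) = ∫ M(ξ - η) F(η) dη` is in `L¹ ∩ L²`
(Young), and `𝓕⁻ C = μ · 𝓕⁻ F` (convolution theorem, inversion for `μ`).  Plancherel for functions in `L¹ ∩ L²` of `ℂ` is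
in the repository: `Pool.Agent.Helper383.NI` (S2.lean, theorem plancherel) or H153R4/Pl.lean.  So
`‖C‖₂ = ‖μ 𝓕⁻ F‖₂ ≤ k ‖𝓕⁻ F‖₂ = k ‖F‖₂`.  (2) General `F ∈ L²`: `F_n = F · 1_{‖η‖ ≤ n}` is in `L¹ ∩ L²`, `C_n(ξ) → C(ξ)` for
every `ξ` (Cauchy-Schwarz, `M ∈ L²`), Fatou's lemma. -/
def S_CB : Prop := ∀ (μ : ℂ → ℂ) (k : ℝ), 0 ≤ k → ContDiff ℝ ∞ μ → HasCompactSupport μ → (∀ z, ‖μ z‖ ≤ k) →
  ∀ F : ℂ → ℂ, MemLp F 2 →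
    (∫⁻ ξ, ‖∫ η, 𝓕 μ (ξ - η) * F η‖ₑ ^ 2) ≤ ENNReal.ofReal (k ^ 2) * ∫⁻ η, ‖F η‖ₑ ^ 2

/-- JOB CONT (uses `S_YG`, `S_CB`).  The contraction in a weighted space.  Proof.  Let `w(ξ) = (1 + ε ‖ξ‖)^N`,
`M = 𝓕 μ` (Schwartz), `|sym| ≤ 1`.  If `w F ∈ L²` then `F ∈ L²` and
`w(ξ) ∫ M(ξ-η) sym(η) F(η) dη = ∫ M(ξ-η) sym(η) w(η) F(η) dη + ∫ M(ξ-η) (w(ξ) - w(η)) sym(η) F(η) dη`.
The first term has norm `≤ k ‖w F‖₂` by `S_CB`.  As `1 + ε‖ξ‖ ≤ (1 + ε‖η‖)(1 + ε‖ξ-η‖)` and conversely,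
`|w(ξ) - w(η)| ≤ w(η) ((1 + ε‖ξ-η‖)^N - 1)`, so by `S_YG` the second has norm `≤ δ(ε) ‖w F‖₂`,
`δ(ε) = ∫ |M(ζ)| ((1 + ε‖ζ‖)^N - 1) dζ → 0` as `ε → 0` (dominated convergence).  Take `ε` with `κ = k + δ(ε) < 1`. -/
def S_CONT : Prop := ∀ (μ : ℂ → ℂ) (k : ℝ) (N : ℕ), 0 < k → k < 1 → ContDiff ℝ ∞ μ → HasCompactSupport μ →
  (∀ z, ‖μ z‖ ≤ k) → ∃ ε κ : ℝ, 0 < ε ∧ ε ≤ 1 ∧ 0 < κ ∧ κ < 1 ∧ ∀ F : ℂ → ℂ, AEStronglyMeasurable F →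
    (∫⁻ ξ, ‖(((1 + ε * ‖ξ‖) ^ N : ℝ) : ℂ) * F ξ‖ₑ ^ 2) < ⊤ →
    (∫⁻ ξ, ‖(((1 + ε * ‖ξ‖) ^ N : ℝ) : ℂ) * ∫ η, 𝓕 μ (ξ - η) * (sym η * F η)‖ₑ ^ 2) ≤
      ENNReal.ofReal (κ ^ 2) * ∫⁻ ξ, ‖(((1 + ε * ‖ξ‖) ^ N : ℝ) : ℂ) * F ξ‖ₑ ^ 2

/-- JOB FIX (uses `S_CONT`).  The fixed point.  Proof.  Let `w = (1 + ε‖ξ‖)^N`, `κ` be as in `S_CONT`, `M = 𝓕 μ`,
`G = 𝓕 g` (Schwartz), `T F(ξ) = ∫ M(ξ-η) sym(η) F(η) dη`, `d_0 = G`, `d_{n+1} = T d_n`.  By induction `d_n` is continuous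
and bounded, `‖w d_n‖₂ ≤ κ^n ‖w G‖₂`, and `sup |d_{n+1}| ≤ ‖M‖₂ ‖d_n‖₂ ≤ ‖M‖₂ κ^n ‖w G‖₂` (Cauchy-Schwarz; continuity by
dominated convergence or because translation of `M` is continuous in `L²`).  So `H = ∑ d_n` converges uniformly to a
continuous bounded function, `w H ∈ L²` (Minkowski or Fatou), `‖w (H - ∑_{n<m} d_n)‖₂ → 0`, hence
`T H = lim T(∑_{n<m} d_n) = H - G` pointwise (Cauchy-Schwarz).  Finally `(1 + ‖ξ‖)^N ≤ ε^{-N} w`. -/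
def S_FIX : Prop := ∀ (μ g : ℂ → ℂ) (k : ℝ) (N : ℕ), 0 < k → k < 1 → ContDiff ℝ ∞ μ → HasCompactSupport μ →
  (∀ z, ‖μ z‖ ≤ k) → ContDiff ℝ ∞ g → HasCompactSupport g →
  ∃ H : ℂ → ℂ, Continuous H ∧ (∃ B : ℝ, ∀ ξ, ‖H ξ‖ ≤ B) ∧
    (∫⁻ ξ, ‖(((1 + ‖ξ‖) ^ N : ℝ) : ℂ) * H ξ‖ₑ ^ 2) < ⊤ ∧
    ∀ ξ, H ξ = 𝓕 g ξ + ∫ η, 𝓕 μ (ξ - η) * (sym η * H η)

/-- JOB LA.  The function `l(x) = ∫ e^{2 π i ⟨x, ξ⟩} H(ξ) / (π i ξ) dξ = 𝓕⁻ (H / (π i ξ)) x`.  Proof.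
`ξ ↦ ‖ξ‖^n ‖H(ξ)‖ / ‖ξ‖` is integrable for `n ≤ 4`: near `0` because `H` is bounded and `1 / ‖ξ‖` is locally integrable in
the plane, for `‖ξ‖ ≥ 1` by Cauchy-Schwarz, since `(1+‖ξ‖)^6 H ∈ L²` and `(1 + ‖ξ‖)^(-3) ∈ L²`.  So `l` is `C³` (Mathlib:
`Real.contDiff_fourier`, `𝓕⁻ f x = 𝓕 f (-x)`), tends to `0` (Riemann-Lebesgue lemma), and may be differentiated under
the integral: `l_u = ∫ e · 2 π i ξ₁ · H / (π i ξ)`, `l_v = ∫ e · 2 π i ξ₂ · H / (π i ξ)`, so `(l_u + i l_v) / 2 = ∫ e H`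
and `(l_u - i l_v) / 2 = ∫ e (conj ξ / ξ) H` (the point `ξ = 0` has measure zero). -/
def S_LA : Prop := ∀ H : ℂ → ℂ, Continuous H → (∃ B : ℝ, ∀ ξ, ‖H ξ‖ ≤ B) →
  (∫⁻ ξ, ‖(((1 + ‖ξ‖) ^ 6 : ℝ) : ℂ) * H ξ‖ₑ ^ 2) < ⊤ →
  ∃ l : ℂ → ℂ, ContDiff ℝ 3 l ∧ Tendsto l (cocompact ℂ) (nhds 0) ∧
    ∀ x, (du l x + I * dv l x) / 2 = 𝓕⁻ H x ∧ (du l x - I * dv l x) / 2 = 𝓕⁻ (fun ξ => sym ξ * H ξ) x

/-- JOB LB.  The equation.  Proof: `H` and `sym · H` are integrable (Cauchy-Schwarz), `𝓕 μ`, `𝓕 g` are Schwartz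
functions; apply `𝓕⁻` to the equation: `𝓕⁻ 𝓕 g = g` and `𝓕⁻` of the convolution of `𝓕 μ` with `sym H` is the product
`μ · 𝓕⁻(sym H)` (convolution theorem, Mathlib/Analysis/Fourier/Convolution.lean, or Fubini directly). -/
def S_LB : Prop := ∀ (μ g H : ℂ → ℂ), ContDiff ℝ ∞ μ → HasCompactSupport μ → ContDiff ℝ ∞ g → HasCompactSupport g →
  Continuous H → (∃ B : ℝ, ∀ ξ, ‖H ξ‖ ≤ B) → (∫⁻ ξ, ‖(((1 + ‖ξ‖) ^ 6 : ℝ) : ℂ) * H ξ‖ₑ ^ 2) < ⊤ →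
  (∀ ξ, H ξ = 𝓕 g ξ + ∫ η, 𝓕 μ (ξ - η) * (sym η * H η)) →
    ∀ x, 𝓕⁻ H x = μ x * 𝓕⁻ (fun ξ => sym ξ * H ξ) x + g x

/-- The inhomogeneous Beltrami equation (from `S_FIX`, `S_LA`, `S_LB`; done by helper264). -/
def S_LAM : Prop := ∀ (μ g : ℂ → ℂ) (k : ℝ), 0 < k → k < 1 → ContDiff ℝ ∞ μ → HasCompactSupport μ →
  (∀ z, ‖μ z‖ ≤ k) → ContDiff ℝ ∞ g → HasCompactSupport g →
  ∃ l : ℂ → ℂ, ContDiff ℝ 3 l ∧ Tendsto l (cocompact ℂ) (nhds 0) ∧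
    ∀ x, (du l x + I * dv l x) / 2 = μ x * ((du l x - I * dv l x) / 2) + g x

/-- JOB POT.  Potentials.  Proof: `f(u + i v) = ∫_0^u P(s) ds + ∫_0^v R(u + i t) dt`; differentiate under the integral:
`f_v = R`, `f_u = P(u) + ∫_0^v R_u(u + i t) dt = P(u) + ∫_0^v P_v(u + i t) dt = P(u + i v)`.  The derivative of `f` is
`h ↦ re h • P + im h • R`, which is `C²`, so `f` is `C³`. -/
def S_POT : Prop := ∀ P R : ℂ → ℂ, ContDiff ℝ 2 P → ContDiff ℝ 2 R → (∀ z, dv P z = du R z) →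
  ∃ f : ℂ → ℂ, ContDiff ℝ 3 f ∧ ∀ z, du f z = P z ∧ dv f z = R z

/-- JOB HOM.  Bijectivity.  Proof.  Let `h(z) = f(z) - z`.  The derivative of `h` is bounded, and for `‖z‖ ≥ R` it is
multiplication by `c(z) - 1`, which tends to `0`.  (1) For every `δ > 0` there is `C` with `‖h(z)‖ ≤ δ ‖z‖ + C`
(integrate along the segment from `0` to `z`).  So `f` is proper.  (2) `f` is a local homeomorphism at every point (inverse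
function theorem: the real determinant of the derivative is `|c|² Q > 0`).  (3) If `‖w‖` is large then `w` has at most
one preimage: two preimages `a`, `b` satisfy `‖a - w‖ ≤ δ‖a‖ + C`, similarly `b`, so both are in the closed ball of
centre `w` and radius `‖w‖ / 2` (`δ = 1/8`, `‖w‖` large), a convex set where `‖h'‖ ≤ 1/2`, so
`‖a - b‖ = ‖h(a) - h(b)‖ ≤ ‖a - b‖ / 2`.  (4) The image of `f` is open and closed, so `f` is surjective.  (5) The set `A` of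
the `w` with exactly one preimage is not empty by (3), (4).  It is closed: if `w_n → w`, `w_n ∈ A`, and `w` had two preimages
`a ≠ b`, then every point near `w` would have preimages near `a` and near `b`.  It is open: otherwise there are
`w_n → w ∈ A` with preimages `a_n ≠ b_n`; by properness subsequences converge, necessarily to the only preimage `a` of `w`,
and `f` is injective near `a`, a contradiction.  So `A` is everything. -/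
def S_HOM : Prop := ∀ (Q : ℂ → ℝ) (c f : ℂ → ℂ) (R : ℝ), ContDiff ℝ 3 f → (∀ z, 0 < Q z) →
  (∀ z, R ≤ ‖z‖ → Q z = 1) → (∀ z, du f z = (Q z : ℂ) * c z) → (∀ z, dv f z = I * c z) → (∀ z, c z ≠ 0) →
  Tendsto c (cocompact ℂ) (nhds 1) →
    Function.Injective f ∧ Function.Surjective f ∧ Tendsto f (cocompact ℂ) (cocompact ℂ)

/-- JOB MAP (uses `S_LAM`, `S_POT`, `S_HOM`).  Proof.  `μ = (Q - 1) / (Q + 1)`, `g = - i Q_v / (1 + Q)` are smooth with compact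
support and `|μ| ≤ k < 1` by compactness.  Take `l` from `S_LAM`, `c = exp l`.  With `l_z = (l_u - i l_v) / 2`,
`l_z̄ = (l_u + i l_v) / 2` the equation `(1 + Q) l_z̄ = (Q - 1) l_z - i Q_v` says `l_u = - i (Q l_v + Q_v)`, which gives
`(Q c)_v = (i c)_u`.  By `S_POT` there is `f` with `f_u = Q c`, `f_v = i c`, and `c → 1` at infinity; `S_HOM`.  Finally replace
`f` by `(f - f(0)) / c(0)`. -/
def S_MAP : Prop := ∀ (Q : ℂ → ℝ) (R : ℝ), ContDiff ℝ ∞ Q → (∀ z, 0 < Q z) → (∀ z, R ≤ ‖z‖ → Q z = 1) →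
  ∃ f : ℂ → ℂ, IsMap Q f ∧ f 0 = 0 ∧ dv f 0 = I

/-! ## C. Capacity -/

/-- JOB CIRC.  Circles.  Proof: `ψ(θ) = Φ(p + r e^{iθ})` takes the values `0` and `1`, so
`1 ≤ ∫_0^{2π} |ψ'| ≤ (2 π ∫ ψ'²)^{1/2}`, and `ψ'² ≤ r² (Φ_u² + Φ_v²)`.  In polar coordinates about `p` (Mathlib:
`Complex.integral_comp_polarCoord_symm`, after a translation) `Dir Φ ≥ ∫_{r1}^{r2} ∫ ψ'² / r² · r dθ dr ≥
∫_{r1}^{r2} dr / (2 π r)`. -/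
def S_CIRC : Prop := ∀ Φ : ℂ → ℝ, ContDiff ℝ 1 Φ → HasCompactSupport Φ → ∀ (p : ℂ) (r₁ r₂ : ℝ), 0 < r₁ → r₁ ≤ r₂ →
  (∀ r ∈ Ioo r₁ r₂, (∃ w, ‖w - p‖ = r ∧ Φ w = 1) ∧ ∃ w, ‖w - p‖ = r ∧ Φ w = 0) →
    Real.log (r₂ / r₁) ≤ 2 * Real.pi * Dir Φ

/-- JOB RING (uses `S_CIRC`).  Proof.  Let `L = ‖w0‖ > 0` (as `Φ(0) = 1`), `ℓ = ‖w1‖`.  If `ℓ > L` replace `w1` by a point
of `E` of absolute value `L` (connectedness); so let `0 < ℓ ≤ L` (`ℓ = 0` is trivial).  A connected set meets every circle about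
`p` which separates the distances of two of its points from `p`; `F` meets all circles about `p` of radius
`> ‖w0 - p‖`.
Case 1: `‖w0 - w1‖ < L / 2`.  Take `p = w0`: the circles of radius `r ∈ (L/2, L)` meet `E` (`0` has distance `L`) and `F`;
`S_CIRC` gives `log 2 ≤ 2 π Dir`, so `ℓ / L ≤ 1 ≤ 10 Dir`.
Case 2: `‖w0 - w1‖ ≥ L / 2`.  Take `p = w0 + s w1 / ℓ` with `s = L/4` or `s = -L/4`.  `D = ‖p‖² - ‖p - w1‖² =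
2 Re(p conj w1) - ℓ² = D_0 + 2 s ℓ`, so for one of the two signs `|D| ≥ L ℓ / 2`.  `‖p‖ ≤ 5L/4`, `‖p - w1‖ ≤ 9L/4`, so
`| ‖p‖ - ‖p - w1‖ | ≥ ℓ / 7`.  `‖p‖ ≥ 3L/4`, `‖p - w1‖ ≥ L/4 = ‖p - w0‖`.  So with `r1 < r2` the two numbers `‖p‖`, `‖p - w1‖`
all the circles of radius in `(r1, r2)` meet `E` and `F`, and
`2 π Dir ≥ log (r2 / r1) ≥ (r2 - r1) / r2 ≥ (ℓ / 7) / (9 L / 4) = 4 ℓ / (63 L)`, so `ℓ / L ≤ (63 π / 2) Dir ≤ 100 Dir`. -/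
def S_RING : Prop := ∀ Φ : ℂ → ℝ, ContDiff ℝ 1 Φ → HasCompactSupport Φ → ∀ (E F : Set ℂ), IsPreconnected E →
  IsPreconnected F → ∀ w₀ w₁ : ℂ, 0 ∈ E → w₁ ∈ E → w₀ ∈ F → (∀ R : ℝ, ∃ w ∈ F, R < ‖w‖) →
    (∀ w ∈ E, Φ w = 1) → (∀ w ∈ F, Φ w = 0) → min (‖w₁‖ / ‖w₀‖) 1 ≤ 100 * Dir Φ

/-- JOB EN.  Conformal invariance of the energy.  Proof: `f` is a `C³` diffeomorphism with derivative
`h ↦ c (Q re h + i im h)`, `c = - i f_v`, of determinant `|c|² Q > 0` (so `f⁻¹` is `C³` too).  `Φ = φ ∘ f⁻¹`; at `w = f z`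
`(Φ_u² + Φ_v²)(w) = (φ_u² / Q² + φ_v²) / |c|²`.  Change of variables
(`MeasureTheory.integral_image_eq_integral_abs_det_fderiv_smul`). -/
def S_EN : Prop := ∀ (Q : ℂ → ℝ) (f : ℂ → ℂ), IsMap Q f → (∀ z, 0 < Q z) → ∀ φ : ℂ → ℝ, ContDiff ℝ 1 φ →
  HasCompactSupport φ → ∃ Φ : ℂ → ℝ, ContDiff ℝ 1 Φ ∧ HasCompactSupport Φ ∧ (∀ z, Φ (f z) = φ z) ∧
    Dir Φ = Energy Q φ

/-- JOB SCALE (uses `S_RING`, `S_EN`).  Proof: `E = f(closedBall 0 ρ)`, `F = f({‖z‖ ≥ ρ'})`; `{‖z‖ ≥ ρ'}` is connected,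
`f(0) = 0`, `f` is surjective and bounded on balls, so `F` is unbounded. -/
def S_SCALE : Prop := ∀ (Q : ℂ → ℝ) (f : ℂ → ℂ), IsMap Q f → (∀ z, 0 < Q z) → f 0 = 0 → ∀ (φ : ℂ → ℝ) (ρ ρ' : ℝ),
  ContDiff ℝ 1 φ → 0 < ρ → ρ < ρ' → (∀ z, ‖z‖ ≤ ρ → φ z = 1) → (∀ z, ρ' ≤ ‖z‖ → φ z = 0) →
    ∀ z z₀ : ℂ, ‖z‖ ≤ ρ → ρ' ≤ ‖z₀‖ → min (‖f z‖ / ‖f z₀‖) 1 ≤ 100 * Energy Q φ

/-! ## D. Univalent functions -/

/-- JOB GR.  Distortion of univalent functions near the centre.  Proof.  Koebe's one quarter theorem is in the repository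
(Pool/Agent/Helper240/ZFM/Q2b.lean, theorem ZFM.J_q2b.koebe_quarter; other versions in Helper405).  Let `Ω = G(ball 0 b)`,
`d(w)` the distance of `G(w)` from the complement of `Ω`.  Koebe in the ball of centre `w`, radius `b - ‖w‖`:
`|G'(w)| (b - ‖w‖) ≤ 4 d(w)`.  `d(w) ≤ |G(w)| + d(0)`, `d(0) ≤ b` (Schwarz lemma for the inverse function on the ball of radius
`d(0)`).  So `y(r) = |G(r e^{iθ})| + b` grows at most as `y' ≤ 4 y / (b - r)`: `y(r) ≤ b (b / (b - r))^4`, hence `|G(w)| ≤ 16 b` for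
`‖w‖ ≤ b/2`.  (Or use any distortion theorem of the repository.)  Maximum principle (Schwarz lemma twice) for
`(G(w) - w) / w²`: `|G(w) - w| ≤ 70 ‖w‖² / b` for `‖w‖ ≤ b/2`; Cauchy's estimate on the circle of radius `‖w‖` about `w`. -/
def S_GR : Prop := ∃ C : ℝ, 1 ≤ C ∧ ∀ (G : ℂ → ℂ) (b : ℝ), 0 < b → DifferentiableOn ℂ G (ball 0 b) →
  InjOn G (ball 0 b) → G 0 = 0 → deriv G 0 = 1 → ∀ w : ℂ, ‖w‖ ≤ b / 4 → ‖deriv G w - 1‖ ≤ C * ‖w‖ / b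

/-- JOB COMP.  The change of chart is holomorphic.  Proof: `G = f₂ ∘ f₁⁻¹`.  `f₁` is a `C³` diffeomorphism of the plane
(inverse function theorem; the derivative of `f_j` is `h ↦ c_j (Q re h + i im h)`, `c_j = - i (f_j)_v ≠ 0`), so `G` is real
differentiable on the open set `f₁ '' ball` and its derivative at `f₁ z` is multiplication by `c₂ / c₁`. -/
def S_COMP : Prop := ∀ (Q₁ Q₂ : ℂ → ℝ) (f₁ f₂ : ℂ → ℂ), IsMap Q₁ f₁ → IsMap Q₂ f₂ → ∀ ρ : ℝ, 0 < ρ →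
  (∀ z ∈ ball (0 : ℂ) ρ, Q₂ z = Q₁ z ∧ 0 < Q₁ z) → IsOpen (f₁ '' ball 0 ρ) ∧ ∃ G : ℂ → ℂ,
    DifferentiableOn ℂ G (f₁ '' ball 0 ρ) ∧ InjOn G (f₁ '' ball 0 ρ) ∧
      ∀ z ∈ ball (0 : ℂ) ρ, G (f₁ z) = f₂ z ∧ deriv G (f₁ z) * dv f₁ z = dv f₂ z

/-- JOB KEY (uses `S_GR`, `S_COMP`).  Proof.  Let `b = inf {‖f₁ z₀‖ : ‖z₀‖ ≥ ρ'}`, positive (`f₁` is proper, injective,
`f₁ 0 = 0`); as `f₁` is surjective `ball 0 b ⊆ f₁ '' ball 0 ρ'`.  `G` from `S_COMP` on `ball 0 b`: `G 0 = 0`,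
`deriv G 0 = 1`.  `w = f₁ z`, `w' = f₁ z'` are in the closed ball of radius `η b ≤ b / 4`, where `‖G' - 1‖ ≤ C η` by `S_GR`; mean
value inequality for `G - id`. -/
def S_KEY : Prop := ∃ C : ℝ, 1 ≤ C ∧ ∀ (Q₁ Q₂ : ℂ → ℝ) (f₁ f₂ : ℂ → ℂ), IsMap Q₁ f₁ → IsMap Q₂ f₂ →
  f₁ 0 = 0 → f₂ 0 = 0 → dv f₁ 0 = I → dv f₂ 0 = I → ∀ ρ ρ' η : ℝ, 0 < ρ → ρ < ρ' → 0 < η → η ≤ 1 / 4 →
    (∀ z ∈ ball (0 : ℂ) ρ', Q₂ z = Q₁ z ∧ 0 < Q₁ z) →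
    (∀ z z₀ : ℂ, ‖z‖ ≤ ρ → ρ' ≤ ‖z₀‖ → ‖f₁ z‖ ≤ η * ‖f₁ z₀‖) → ∀ z z' : ℂ, ‖z‖ ≤ ρ → ‖z'‖ ≤ ρ →
      ‖(f₂ z - f₂ z') - (f₁ z - f₁ z')‖ ≤ C * η * ‖f₁ z - f₁ z'‖

/-! ## E. The limit -/

/-- the sequence of maps -/
structure Tower (ρ : ℕ → ℝ) (Q : ℕ → ℂ → ℝ) (f : ℕ → ℂ → ℂ) : Prop where
  mono : StrictMono ρ
  lo : ∀ n, 1 / 2 ≤ ρ n
  hi : ∀ n, ρ n < 1
  lim : Tendsto ρ atTop (nhds 1)
  pos : ∀ n z, 0 < Q n z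
  agree : ∀ n m, n ≤ m → ∀ z, ‖z‖ ≤ ρ n → Q m z = Q n z
  map : ∀ n, IsMap (Q n) (f n)
  zero : ∀ n, f n 0 = 0
  far : ∀ n m, n < m → ∀ z z₀ : ℂ, ‖z‖ ≤ ρ n → ρ (n + 1) ≤ ‖z₀‖ → ‖f m z‖ ≤ (1 / 2) ^ (n + 2) * ‖f m z₀‖
  near : ∀ n m m', n < m → n < m' → ∀ z z' : ℂ, ‖z‖ ≤ ρ n → ‖z'‖ ≤ ρ n →
    ‖(f m' z - f m' z') - (f m z - f m z')‖ ≤ (1 / 2) ^ (n + 2) * ‖f m z - f m z'‖

/-- JOB LIMA.  The limit and its bijectivity.  Proof.  (1) `near` with `z' = 0`: for `‖z‖ ≤ ρ_j` and `m > j`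
`‖f_m z‖ ≤ 2 ‖f_{j+1} z‖`, and for `m, m' > n ≥ j`: `‖f_{m'} z - f_m z‖ ≤ 2^{-n-2} ‖f_m z‖ ≤ 2^{-n-1} ‖f_{j+1} z‖`; so `f_m`
is uniformly Cauchy on `‖z‖ ≤ ρ_j`.  Let `g` be the limit on the open disc.  (2) Letting `m' → ∞` in `near` gives the
displayed inequality.  It gives injectivity (`f_m` is injective).  (3) Surjective: let `w ∈ ℂ`.  Fix `z* = 1/4`:
`‖f_m z*‖ ≥ ½ ‖f_1 z*‖ > 0` for `m ≥ 1` (near with `n = 0`).  For `n ≥ 1` and `‖z₀‖ ≥ ρ_n`: by `far` for `n - 1`, `m = n + 1`,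
`‖f_{n+1} z₀‖ ≥ 2^{n+1} ‖f_{n+1} z*‖ ≥ 2^n ‖f_1 z*‖ =: b_n → ∞`.  Take `n` with `b_n / 2 > ‖w‖`.  As `f_{n+1}` is surjective, the ball
of radius `b_n` is contained in `f_{n+1}(closedBall 0 ρ_n)`; on the closed ball `B` of radius `b_n / 2` let
`h = g ∘ f_{n+1}⁻¹ - id`: by (2) `h` is Lipschitz with constant `1/4` and `h(0) = 0`.  For `‖w‖ ≤ b_n / 4` the map
`y ↦ w - h(y)` maps `B` into itself and is a contraction; its fixed point `y` has `g(f_{n+1}⁻¹ y) = w`.  (Take `n` larger so that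
`‖w‖ ≤ b_n / 4`.) -/
def S_LIMA : Prop := ∀ (ρ : ℕ → ℝ) (Q : ℕ → ℂ → ℝ) (f : ℕ → ℂ → ℂ), Tower ρ Q f → ∃ g : ℂ → ℂ,
  (∀ n, TendstoUniformlyOn f g atTop (closedBall 0 (ρ n))) ∧ BijOn g (ball 0 1) univ ∧
  ∀ n m, n < m → ∀ z z' : ℂ, ‖z‖ ≤ ρ n → ‖z'‖ ≤ ρ n →
    ‖(g z - g z') - (f m z - f m z')‖ ≤ (1 / 2) ^ (n + 2) * ‖f m z - f m z'‖

/-- JOB LIMB (uses `S_COMP`).  Regularity of the limit.  Proof.  Let `n ≥ 0`, `V = f_n '' ball 0 ρ_n` (open).  For `m ≥ n` by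
`S_COMP` (`Q_m = Q_n` on the ball) `f_m = G_m ∘ f_n` on the ball, with `G_m` holomorphic on `V`.  `G_m` converges uniformly on
`V` to `G`, `G (f_n z) = g z`, so `G` is holomorphic on `V` (`TendstoLocallyUniformlyOn.differentiableOn`), and injective as
`g` is injective on the disc, so `G' ≠ 0` on `V` (holomorphic injective functions have nonvanishing derivative).  Thus
`g = G ∘ f_n` is `C³` on `ball 0 ρ_n`, `g_u = G'(f_n) (f_n)_u`, `g_v = G'(f_n) (f_n)_v`: `t = Q_n z`.  Every point of the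
disc is in `ball 0 ρ_n` for some `n`. -/
def S_LIMB : Prop := ∀ (ρ : ℕ → ℝ) (Q : ℕ → ℂ → ℝ) (f : ℕ → ℂ → ℂ), Tower ρ Q f → ∀ g : ℂ → ℂ,
  (∀ n, TendstoUniformlyOn f g atTop (closedBall 0 (ρ n))) → InjOn g (ball 0 1) →
    ContDiffOn ℝ 3 g (ball 0 1) ∧ ∀ z ∈ ball (0 : ℂ) 1, ∃ t : ℝ, 0 < t ∧ du g z = -I * (t : ℂ) * dv g z ∧ dv g z ≠ 0

/-! ## F. The metric -/

/-- JOB FIN.  Proof.  `X(u, v) = (re g(u + i v), im g(u + i v))`, `E = |g_u|²`, `G = |g_v|²` (as functions of `(u, v)`; `C²`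
on the disc as the derivative of `g` is `C²` there).  `E, G > 0`; `re (g_u conj g_v) = 0` as `g_u = - i t g_v`.  So `X` is an
isometry of the disc onto the plane (the image is `univ`); it is also the isometry required in `LocallyEuclidean`, with
`U = Disc`.  Completeness: for a `C¹` path `γ` in the disc the length is `∫_0^1 ‖(g ∘ γ)'‖ dt ≥ ‖g(γ 1) - g(γ 0)‖`, so
`lengthDist p q ≥ ‖g p - g q‖`; and the path `g⁻¹` of the segment from `g p` to `g q` has length exactly `‖g p - g q‖`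
(`g⁻¹` is `C¹` by the inverse function theorem, the derivative of `g` has determinant `t |g_v|² > 0`).  So
`lengthDist p q = ‖g p - g q‖` on the disc, and a Cauchy sequence `x_n` is mapped to a Cauchy sequence of `ℂ`, with limit
`g p`, `p` in the disc. -/
def S_FIN : Prop := ∀ g : ℂ → ℂ, BijOn g (ball 0 1) univ → ContDiffOn ℝ 3 g (ball 0 1) →
  (∀ z ∈ ball (0 : ℂ) 1, ∃ t : ℝ, 0 < t ∧ du g z = -I * (t : ℂ) * dv g z ∧ dv g z ≠ 0) → Final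

end Pool.Agent.Q264.PD
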